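import Pool.Agent.Helper617.FS.Comb3

/-!
The game largeness for finite sets, and the compactness argument.
-/

namespace Pool.Agent.Helper617.FS

open Filter

theorem LL.exists_gt {B : BP} (hne : ∀ n ε D, B n ε D → D.Nonempty) {Z : Set ℕ} (hZ : LL B Z)
    (m : ℕ) : ∃ x ∈ Z, m < x := by
  obtain ⟨D, h1, h2, h3⟩ := hZ 0 true m
  obtain ⟨x, hx⟩ := hne _ _ _ h3
  exact ⟨x, h1 hx, h2 x hx⟩

theorem LL.freeFam {B : BP} {P Q : ℕ} (hanti : Anti B) (h1 : H1 B Q) (h2 : H2 B P) (h3 : H3 B)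
    (hne : ∀ n ε D, B n ε D → D.Nonempty)
    {Z : Set ℕ} (hZ : LL B Z) (k : ℕ) (g : ℕ → ℕ → ℕ → ℕ) (γ : ℕ → ℕ → ℕ) :
    ∃ Z' ⊆ Z, LL B Z' ∧ ∀ i < k, FreeP (g i) Z' ∧ FreeU (γ i) Z' := by
  induction k with
  | zero => exact ⟨Z, subset_rfl, hZ, fun i hi => absurd hi (Nat.not_lt_zero _)⟩
  | succ k ih =>
    obtain ⟨Z1, hs1, hL1, hf1⟩ := ih
    obtain ⟨Z2, hs2, hL2, hf2⟩ := hL1.free hanti h1 h2 h3 (g k)
    obtain ⟨Z3, hs3, hL3, hf3⟩ := hL2.free hanti h1 h2 h3 (fun x _ => γ k x)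
    refine ⟨Z3, hs3.trans (hs2.trans hs1), hL3, ?_⟩
    intro i hi
    rcases Nat.lt_succ_iff_lt_or_eq.mp hi with h | rfl
    · exact ⟨(hf1 i h).1.mono (hs3.trans hs2), (hf1 i h).2.mono (hs3.trans hs2)⟩
    · refine ⟨hf2.mono hs3, ?_⟩
      intro x hx hg
      obtain ⟨y, hy, hxy⟩ := hL3.exists_gt hne (max x (γ i x))
      rcases hf3 x hx y hy (lt_of_le_of_lt (le_max_left _ _) hxy) hg with h | h
      · exact h
      · exfalso
        have h' : γ i x = y := h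
        have := le_max_right x (γ i x)
        omega

/-- the growth function -/
def FF (x : ℕ) : ℕ := x ^ 2 + 2 * x + 2

/-- moves -/
def M1 (B : BP) (n : ℕ) (Y : Finset ℕ) : Prop := ∀ ε, ∃ D ⊆ Y, B n ε D

def M2 (G : Finset ℕ → Prop) (Y : Finset ℕ) : Prop :=
  ∀ (k : ℕ) (g : ℕ → ℕ → ℕ → ℕ) (γ : ℕ → ℕ → ℕ), (∀ y ∈ Y, k ≤ y) →
    ∃ Y' ⊆ Y, G Y' ∧ ∀ i < k, FreeP (g i) (Y' : Set ℕ) ∧ FreeU (γ i) (Y' : Set ℕ)

def M3 (G : Finset ℕ → Prop) (Y : Finset ℕ) : Prop :=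
  ∀ H : Finset ℕ, (∀ y ∈ Y, H.card ≤ y) →
    ∃ Y' ⊆ Y, G Y' ∧ ∀ h ∈ H, (∀ y ∈ Y', h < y) ∨ (∀ y ∈ Y', y < h)

def M4 (G : Finset ℕ → Prop) (Y : Finset ℕ) : Prop :=
  ∃ x ∈ Y, ∃ Y' ⊆ Y, G Y' ∧ ∀ y ∈ Y', FF x ≤ y

def M5 (P : ℕ) (G : Finset ℕ → Prop) (Y : Finset ℕ) : Prop :=
  ∀ (K : ℕ) (c : ℕ → ℕ → ℕ), (∀ y ∈ Y, K ≤ y) → (∀ x y, c x y < K) →
    ∃ Y' ⊆ Y, G Y' ∧ ∃ C : Finset ℕ, C.card ≤ P ∧ ∀ x ∈ Y', ∀ y ∈ Y', x < y → c x y ∈ C

def M6 (Q : ℕ) (G : Finset ℕ → Prop) (Y : Finset ℕ) : Prop :=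
  ∀ (K : ℕ) (c : ℕ → ℕ), (∀ y ∈ Y, K ≤ y) → (∀ x, c x < K) →
    ∃ Y' ⊆ Y, G Y' ∧ ∃ C : Finset ℕ, C.card ≤ Q ∧ ∀ x ∈ Y', c x ∈ C

/-- the game -/
def game (B : BP) (P Q : ℕ) : ℕ → Finset ℕ → Prop
  | 0, Y => Y.Nonempty
  | n + 1, Y => game B P Q n Y ∧ M1 B n Y ∧ M2 (game B P Q n) Y ∧ M3 (game B P Q n) Y ∧
      M4 (game B P Q n) Y ∧ M5 P (game B P Q n) Y ∧ M6 Q (game B P Q n) Y

section mono
variable {B : BP} {P Q n : ℕ} {G : Finset ℕ → Prop} {Y Y' : Finset ℕ}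
theorem M1.mono (h : M1 B n Y) (hs : Y ⊆ Y') : M1 B n Y' := by
  intro ε
  obtain ⟨D, h1, h2⟩ := h ε
  exact ⟨D, h1.trans hs, h2⟩
theorem M2.mono (h : M2 G Y) (hs : Y ⊆ Y') : M2 G Y' := by
  intro k g γ hk
  obtain ⟨D, h1, h2⟩ := h k g γ (fun y hy => hk y (hs hy))
  exact ⟨D, h1.trans hs, h2⟩
theorem M3.mono (h : M3 G Y) (hs : Y ⊆ Y') : M3 G Y' := by
  intro H hk
  obtain ⟨D, h1, h2⟩ := h H (fun y hy => hk y (hs hy))
  exact ⟨D, h1.trans hs, h2⟩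
theorem M4.mono (h : M4 G Y) (hs : Y ⊆ Y') : M4 G Y' := by
  obtain ⟨x, hx, D, h1, h2⟩ := h
  exact ⟨x, hs hx, D, h1.trans hs, h2⟩
theorem M5.mono (h : M5 P G Y) (hs : Y ⊆ Y') : M5 P G Y' := by
  intro K c hK hc
  obtain ⟨D, h1, h2⟩ := h K c (fun y hy => hK y (hs hy)) hc
  exact ⟨D, h1.trans hs, h2⟩
theorem M6.mono (h : M6 Q G Y) (hs : Y ⊆ Y') : M6 Q G Y' := by
  intro K c hK hc
  obtain ⟨D, h1, h2⟩ := h K c (fun y hy => hK y (hs hy)) hc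
  exact ⟨D, h1.trans hs, h2⟩
end mono

theorem game_mono {B : BP} {P Q : ℕ} : ∀ (n : ℕ) {Y Y' : Finset ℕ}, Y ⊆ Y' → game B P Q n Y →
    game B P Q n Y'
  | 0, _, _, hs, h => Finset.Nonempty.mono hs h
  | n + 1, _, _, hs, h => ⟨game_mono n hs h.1, h.2.1.mono hs, h.2.2.1.mono hs, h.2.2.2.1.mono hs,
      h.2.2.2.2.1.mono hs, h.2.2.2.2.2.1.mono hs, h.2.2.2.2.2.2.mono hs⟩

theorem game_nonempty {B : BP} {P Q : ℕ} : ∀ (n : ℕ) {Y : Finset ℕ}, game B P Q n Y → Y.Nonempty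
  | 0, _, h => h
  | n + 1, _, h => game_nonempty n h.1

open Classical in
/-- initial parts of a set -/
noncomputable def cut (Z : Set ℕ) (t : ℕ) : Finset ℕ := (Finset.range (t + 1)).filter (· ∈ Z)

theorem mem_cut {Z : Set ℕ} {t x : ℕ} : x ∈ cut Z t ↔ x ≤ t ∧ x ∈ Z := by
  classical
  unfold cut
  rw [Finset.mem_filter, Finset.mem_range]
  constructor
  · rintro ⟨h1, h2⟩; exact ⟨by omega, h2⟩
  · rintro ⟨h1, h2⟩; exact ⟨by omega, h2⟩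

theorem cut_mono {Z Z' : Set ℕ} (hZ : Z ⊆ Z') {t t' : ℕ} (h : t ≤ t') : cut Z t ⊆ cut Z' t' := by
  intro x hx
  rw [mem_cut] at hx ⊢
  exact ⟨hx.1.trans h, hZ hx.2⟩

theorem subset_cut {Z : Set ℕ} {D : Finset ℕ} (hD : (D : Set ℕ) ⊆ Z) {t : ℕ} (ht : D.sup id ≤ t) :
    D ⊆ cut Z t := by
  intro x hx
  rw [mem_cut]
  exact ⟨(Finset.le_sup (f := id) hx).trans ht, hD hx⟩

/-- a fixed nonprincipal ultrafilter -/
noncomputable abbrev UU : Ultrafilter ℕ := hyperfilter ℕ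

theorem ev_ge (k : ℕ) : ∀ᶠ t in (UU : Filter ℕ), k ≤ t :=
  Nat.hyperfilter_le_atTop (Filter.eventually_ge_atTop k)

theorem ev_const {p : Prop} (h : ∀ᶠ _t in (UU : Filter ℕ), p) : p := by
  obtain ⟨_, h⟩ := h.exists
  exact h

open Classical in
/-- the limit of a sequence of numbers, with a default value -/
noncomputable def lim (a : ℕ → ℕ) (d : ℕ) : ℕ :=
  if h : ∃ z, ∀ᶠ t in (UU : Filter ℕ), a t = z then h.choose else d

theorem lim_spec (a : ℕ → ℕ) (d z : ℕ) : ∀ᶠ t in (UU : Filter ℕ), a t = z → lim a d = z := by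
  classical
  by_cases h : ∃ z, ∀ᶠ t in (UU : Filter ℕ), a t = z
  · have e : lim a d = h.choose := dif_pos h
    refine h.choose_spec.mono ?_
    intro t ht hz
    rw [e, ← ht, hz]
  · push Not at h
    exact (h z).mono fun t ht hz => absurd hz ht

theorem lim_bdd (a : ℕ → ℕ) (d K : ℕ) (h : ∀ᶠ t in (UU : Filter ℕ), a t < K) :
    ∀ᶠ t in (UU : Filter ℕ), a t = lim a d := by
  classical
  have hex : ∃ z, ∀ᶠ t in (UU : Filter ℕ), a t = z := by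
    by_contra hcon
    push Not at hcon
    have h1 : ∀ z, ∀ᶠ t in (UU : Filter ℕ), ¬ a t = z := fun z => hcon z
    have h2 : ∀ᶠ t in (UU : Filter ℕ), ∀ z ∈ Finset.range K, ¬ a t = z :=
      (Filter.eventually_all_finset _).mpr fun z _ => h1 z
    obtain ⟨t, ht1, ht2⟩ := (h.and h2).exists
    exact ht2 _ (Finset.mem_range.mpr ht1) rfl
  have e : lim a d = hex.choose := dif_pos hex
  rw [e]
  exact hex.choose_spec

theorem lim_lt (a : ℕ → ℕ) (d K : ℕ) (h : ∀ᶠ t in (UU : Filter ℕ), a t < K) : lim a d < K := by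
  obtain ⟨t, h1, h2⟩ := (h.and (lim_bdd a d K h)).exists
  rw [← h2]; exact h1

section compactness
variable {B : BP} {P Q : ℕ} {G : Finset ℕ → Prop} {Z : Set ℕ}

theorem comp_M2 (hanti : Anti B) (h1 : H1 B Q) (h2 : H2 B P) (h3 : H3 B)
    (hne : ∀ n ε D, B n ε D → D.Nonempty) (IH : ∀ Z, LL B Z → ∃ t, G (cut Z t))
    (hZ : LL B Z) : ∃ t, M2 G (cut Z t) := by
  classical
  by_contra hcon
  unfold M2 at hcon
  push Not at hcon
  choose k g γ hk hbad using hcon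
  obtain ⟨x0, hx0, _⟩ := hZ.exists_gt hne 0
  have hkx : ∀ t, x0 ≤ t → k t ≤ x0 := fun t ht => hk t x0 (mem_cut.mpr ⟨ht, hx0⟩)
  let g' : ℕ → ℕ → ℕ → ℕ := fun i x y => lim (fun t => if i < k t then g t i x y else x) x
  let γ' : ℕ → ℕ → ℕ := fun i x => lim (fun t => if i < k t then γ t i x else x) x
  obtain ⟨Z', hZ', hLL, hfree⟩ := hZ.freeFam hanti h1 h2 h3 hne x0 g' γ'
  obtain ⟨t1, ht1⟩ := IH Z' hLL
  set F0 := cut Z' t1 with hF0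
  have hF0Z : ∀ x ∈ F0, x ∈ Z' := fun x hx => (mem_cut.mp hx).2
  have e1 : ∀ᶠ t in (UU : Filter ℕ), ∀ i ∈ Finset.range x0, ∀ x ∈ F0, ∀ y ∈ F0, ∀ z ∈ F0,
      ((if i < k t then g t i x y else x) = z → g' i x y = z) ∧
      ((if i < k t then γ t i x else x) = z → γ' i x = z) := by
    refine (Filter.eventually_all_finset _).mpr fun i _ => ?_
    refine (Filter.eventually_all_finset _).mpr fun x _ => ?_
    refine (Filter.eventually_all_finset _).mpr fun y _ => ?_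
    refine (Filter.eventually_all_finset _).mpr fun z _ => ?_
    exact (lim_spec _ x z).and (lim_spec _ x z)
  obtain ⟨t, ht, htx, ht1t⟩ := (e1.and ((ev_ge x0).and (ev_ge t1))).exists
  have hsub : F0 ⊆ cut Z t := cut_mono hZ' ht1t
  obtain ⟨i, hik, hi⟩ := hbad t F0 hsub ht1
  have hix : i < x0 := lt_of_lt_of_le hik (hkx t htx)
  have hP : FreeP (g t i) (F0 : Set ℕ) := by
    intro x hx y hy hxy hg
    have := (ht i (Finset.mem_range.mpr hix) x hx y hy (g t i x y) hg).1 (if_pos hik)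
    rw [← this]
    rw [← this] at hg
    exact (hfree i hix).1 x (hF0Z x hx) y (hF0Z y hy) hxy (hF0Z _ hg)
  have hU : FreeU (γ t i) (F0 : Set ℕ) := by
    intro x hx hg
    have := (ht i (Finset.mem_range.mpr hix) x hx x hx (γ t i x) hg).2 (if_pos hik)
    rw [← this]
    rw [← this] at hg
    exact (hfree i hix).2 x (hF0Z x hx) (hF0Z _ hg)
  exact hi hP hU

theorem comp_M5 (hanti : Anti B) (h1 : H1 B Q) (h2 : H2 B P)
    (hne : ∀ n ε D, B n ε D → D.Nonempty) (IH : ∀ Z, LL B Z → ∃ t, G (cut Z t))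
    (hZ : LL B Z) : ∃ t, M5 (2 * P + (2 * Q) ^ 2) G (cut Z t) := by
  classical
  by_contra hcon
  unfold M5 at hcon
  push Not at hcon
  choose k c hk hc hbad using hcon
  obtain ⟨x0, hx0, _⟩ := hZ.exists_gt hne 0
  have hkx : ∀ t, x0 ≤ t → k t ≤ x0 := fun t ht => hk t x0 (mem_cut.mpr ⟨ht, hx0⟩)
  have hbd : ∀ x y, ∀ᶠ t in (UU : Filter ℕ), c t x y < x0 := fun x y =>
    (ev_ge x0).mono fun t ht => lt_of_lt_of_le (hc t x y) (hkx t ht)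
  let c' : ℕ → ℕ → ℕ := fun x y => lim (fun t => c t x y) 0
  have hc' : ∀ x y, c' x y < x0 := fun x y => lim_lt _ _ _ (hbd x y)
  obtain ⟨Z', hZ', hLL, C, hC, hC'⟩ := hZ.pairs hanti h1 h2 x0 c' hc'
  obtain ⟨t1, ht1⟩ := IH Z' hLL
  set F0 := cut Z' t1 with hF0
  have hF0Z : ∀ x ∈ F0, x ∈ Z' := fun x hx => (mem_cut.mp hx).2
  have e1 : ∀ᶠ t in (UU : Filter ℕ), ∀ x ∈ F0, ∀ y ∈ F0, c t x y = c' x y := by
    refine (Filter.eventually_all_finset _).mpr fun x _ => ?_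
    refine (Filter.eventually_all_finset _).mpr fun y _ => ?_
    exact lim_bdd _ 0 x0 (hbd x y)
  obtain ⟨t, ht, ht1t⟩ := (e1.and (ev_ge t1)).exists
  have hsub : F0 ⊆ cut Z t := cut_mono hZ' ht1t
  obtain ⟨x, hx, y, hy, hxy, hn⟩ := hbad t F0 hsub ht1 C hC
  apply hn
  rw [ht x hx y hy]
  exact hC' x (hF0Z x hx) y (hF0Z y hy) hxy

theorem comp_M6 (hanti : Anti B) (h1 : H1 B Q)
    (hne : ∀ n ε D, B n ε D → D.Nonempty) (IH : ∀ Z, LL B Z → ∃ t, G (cut Z t))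
    (hZ : LL B Z) : ∃ t, M6 (2 * Q) G (cut Z t) := by
  classical
  by_contra hcon
  unfold M6 at hcon
  push Not at hcon
  choose k c hk hc hbad using hcon
  obtain ⟨x0, hx0, _⟩ := hZ.exists_gt hne 0
  have hkx : ∀ t, x0 ≤ t → k t ≤ x0 := fun t ht => hk t x0 (mem_cut.mpr ⟨ht, hx0⟩)
  have hbd : ∀ x, ∀ᶠ t in (UU : Filter ℕ), c t x < x0 := fun x =>
    (ev_ge x0).mono fun t ht => lt_of_lt_of_le (hc t x) (hkx t ht)
  let c' : ℕ → ℕ := fun x => lim (fun t => c t x) 0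
  have hc' : ∀ x, c' x < x0 := fun x => lim_lt _ _ _ (hbd x)
  obtain ⟨Z', hZ', hLL, C, hC, hC'⟩ := hZ.points hanti h1 x0 c' hc'
  obtain ⟨t1, ht1⟩ := IH Z' hLL
  set F0 := cut Z' t1 with hF0
  have hF0Z : ∀ x ∈ F0, x ∈ Z' := fun x hx => (mem_cut.mp hx).2
  have e1 : ∀ᶠ t in (UU : Filter ℕ), ∀ x ∈ F0, c t x = c' x := by
    refine (Filter.eventually_all_finset _).mpr fun x _ => ?_
    exact lim_bdd _ 0 x0 (hbd x)
  obtain ⟨t, ht, ht1t⟩ := (e1.and (ev_ge t1)).exists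
  have hsub : F0 ⊆ cut Z t := cut_mono hZ' ht1t
  obtain ⟨x, hx, hn⟩ := hbad t F0 hsub ht1 C hC
  apply hn
  rw [ht x hx]
  exact hC' x (hF0Z x hx)

theorem comp_M3 (hne : ∀ n ε D, B n ε D → D.Nonempty) (IH : ∀ Z, LL B Z → ∃ t, G (cut Z t))
    (hZ : LL B Z) : ∃ t, M3 G (cut Z t) := by
  classical
  obtain ⟨x0, hx0, _⟩ := hZ.exists_gt hne 0
  obtain ⟨D, hD, hDD⟩ := many (Φ := fun D => (D : Set ℕ) ⊆ Z ∧ G D) (by
    intro m
    obtain ⟨t, ht⟩ := IH _ (hZ.tail m)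
    refine ⟨_, ⟨fun x hx => ((mem_cut.mp hx).2).1, ht⟩, fun x hx => ((mem_cut.mp hx).2).2⟩)
  let T := max x0 ((Finset.range (x0 + 1)).sup (fun i => (D i).sup id))
  refine ⟨T, ?_⟩
  intro H hH
  have hcard : H.card ≤ x0 := hH x0 (mem_cut.mpr ⟨le_max_left _ _, hx0⟩)
  -- a block whose hull contains no point of `H`
  have hex : ∃ i < x0 + 1, ∀ h ∈ H, ¬ ((∃ a ∈ D i, a ≤ h) ∧ (∃ b ∈ D i, h ≤ b)) := by
    by_contra hcon
    push Not at hcon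
    choose! f hf1 hf2 using hcon
    have hinj : Set.InjOn f (Finset.range (x0 + 1) : Finset ℕ) := by
      intro i hi j hj hij
      have hi' := Finset.mem_range.mp (Finset.mem_coe.mp hi)
      have hj' := Finset.mem_range.mp (Finset.mem_coe.mp hj)
      obtain ⟨⟨a, ha, ha'⟩, b, hb, hb'⟩ := hf2 i hi'
      obtain ⟨⟨a2, ha2, ha2'⟩, b2, hb2, hb2'⟩ := hf2 j hj'
      rcases lt_trichotomy i j with h | h | h
      · have := hDD i j h b hb a2 ha2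
        omega
      · exact h
      · have := hDD j i h b2 hb2 a ha
        omega
    have hc := Finset.card_le_card_of_injOn f (s := Finset.range (x0 + 1)) (t := H)
      (fun i hi => hf1 i (Finset.mem_range.mp hi)) hinj
    rw [Finset.card_range] at hc
    omega
  obtain ⟨i, hi, hih⟩ := hex
  refine ⟨D i, subset_cut (hD i).1 ?_, (hD i).2, ?_⟩
  · refine le_trans ?_ (le_max_right _ _)
    exact Finset.le_sup (f := fun i => (D i).sup id) (Finset.mem_range.mpr hi)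
  · intro h hh
    by_cases h1 : ∃ a ∈ D i, a ≤ h
    · right
      intro y hy
      by_contra hcon
      exact hih h hh ⟨h1, y, hy, not_lt.mp hcon⟩
    · left
      intro y hy
      by_contra hcon
      exact h1 ⟨y, hy, not_lt.mp hcon⟩

theorem comp_M4 (hne : ∀ n ε D, B n ε D → D.Nonempty) (IH : ∀ Z, LL B Z → ∃ t, G (cut Z t))
    (hZ : LL B Z) : ∃ t, M4 G (cut Z t) := by
  obtain ⟨x0, hx0, _⟩ := hZ.exists_gt hne 0
  obtain ⟨t, ht⟩ := IH _ (hZ.tail (FF x0))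
  refine ⟨max t x0, x0, mem_cut.mpr ⟨le_max_right _ _, hx0⟩, _,
    cut_mono (fun x hx => hx.1) (le_max_left _ _), ht, ?_⟩
  intro y hy
  exact (((mem_cut.mp hy).2).2).le

theorem comp_M1 (hZ : LL B Z) (n : ℕ) : ∃ t, M1 B n (cut Z t) := by
  obtain ⟨D1, h1, _, h3⟩ := hZ n true 0
  obtain ⟨D2, h1', _, h3'⟩ := hZ n false 0
  refine ⟨max (D1.sup id) (D2.sup id), ?_⟩
  intro ε
  cases ε
  · exact ⟨D2, subset_cut h1' (le_max_right _ _), h3'⟩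
  · exact ⟨D1, subset_cut h1 (le_max_left _ _), h3⟩

/-- compactness -/
theorem LL.game (hanti : Anti B) (h1 : H1 B Q) (h2 : H2 B P) (h3 : H3 B)
    (hne : ∀ n ε D, B n ε D → D.Nonempty) (n : ℕ) :
    ∀ Z, LL B Z → ∃ t, FS.game B (2 * P + (2 * Q) ^ 2) (2 * Q) n (cut Z t) := by
  induction n with
  | zero =>
    intro Z hZ
    obtain ⟨x0, hx0, _⟩ := hZ.exists_gt hne 0
    exact ⟨x0, x0, mem_cut.mpr ⟨le_rfl, hx0⟩⟩
  | succ n IH =>
    intro Z hZ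
    obtain ⟨t0, e0⟩ := IH Z hZ
    obtain ⟨t1, e1⟩ := comp_M1 hZ n
    obtain ⟨t2, e2⟩ := comp_M2 hanti h1 h2 h3 hne IH hZ
    obtain ⟨t3, e3⟩ := comp_M3 hne IH hZ
    obtain ⟨t4, e4⟩ := comp_M4 hne IH hZ
    obtain ⟨t5, e5⟩ := comp_M5 hanti h1 h2 hne IH hZ
    obtain ⟨t6, e6⟩ := comp_M6 hanti h1 hne IH hZ
    let T := t0 + t1 + t2 + t3 + t4 + t5 + t6
    refine ⟨T, game_mono n (cut_mono subset_rfl (by omega)) e0,
      e1.mono (cut_mono subset_rfl (by omega)), e2.mono (cut_mono subset_rfl (by omega)),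
      e3.mono (cut_mono subset_rfl (by omega)), e4.mono (cut_mono subset_rfl (by omega)),
      e5.mono (cut_mono subset_rfl (by omega)), e6.mono (cut_mono subset_rfl (by omega))⟩

end compactness

end Pool.Agent.Helper617.FS
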