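import Mathlib

/-!
Combinatorics of block systems: infinite sets that contain blocks of all levels and types.
-/

namespace Pool.Agent.Helper617.FS

/-- block predicates: level, type, finite set -/
abbrev BP := ℕ → Bool → Finset ℕ → Prop

/-- `Y` is free for the pair function `g` -/
def FreeP (g : ℕ → ℕ → ℕ) (Y : Set ℕ) : Prop :=
  ∀ x ∈ Y, ∀ y ∈ Y, x < y → g x y ∈ Y → g x y = x ∨ g x y = y

/-- `Y` is free for the unary function `γ` -/
def FreeU (γ : ℕ → ℕ) (Y : Set ℕ) : Prop := ∀ x ∈ Y, γ x ∈ Y → γ x = x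

theorem FreeP.mono {g : ℕ → ℕ → ℕ} {Y Y' : Set ℕ} (h : FreeP g Y) (hs : Y' ⊆ Y) : FreeP g Y' :=
  fun x hx y hy hxy hg => h x (hs hx) y (hs hy) hxy (hs hg)

theorem FreeU.mono {γ : ℕ → ℕ} {Y Y' : Set ℕ} (h : FreeU γ Y) (hs : Y' ⊆ Y) : FreeU γ Y' :=
  fun x hx hg => h x (hs hx) (hs hg)

/-- point colourings have few colours after thinning -/
def H1 (B : BP) (Q : ℕ) : Prop :=
  ∀ (n : ℕ) (ε : Bool) (D : Finset ℕ) (K : ℕ) (c : ℕ → ℕ), B (n + 1) ε D → (∀ x ∈ D, K ≤ x) →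
    (∀ x, c x < K) → ∃ D' ⊆ D, B n ε D' ∧ ∃ C : Finset ℕ, C.card ≤ Q ∧ ∀ x ∈ D', c x ∈ C

/-- pair colourings have few colours after thinning -/
def H2 (B : BP) (P : ℕ) : Prop :=
  ∀ (n : ℕ) (ε : Bool) (D : Finset ℕ) (K : ℕ) (c : ℕ → ℕ → ℕ), B (n + 1) ε D →
    (∀ x ∈ D, K ≤ x) → (∀ x y, c x y < K) →
      ∃ D' ⊆ D, B n ε D' ∧ ∃ C : Finset ℕ, C.card ≤ P ∧ ∀ x ∈ D', ∀ y ∈ D', x < y → c x y ∈ C

/-- free subblocks for families -/
def H3 (B : BP) : Prop :=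
  ∀ (n : ℕ) (ε : Bool) (D : Finset ℕ) (k : ℕ) (g : ℕ → ℕ → ℕ → ℕ) (γ : ℕ → ℕ → ℕ),
    B (n + 1) ε D → (∀ x ∈ D, k ≤ x) →
      ∃ D' ⊆ D, B n ε D' ∧ ∀ i < k, FreeP (g i) (D' : Set ℕ) ∧ FreeU (γ i) (D' : Set ℕ)

/-- antitone in the level -/
def Anti (B : BP) : Prop := ∀ (n : ℕ) (ε : Bool) (D : Finset ℕ), B (n + 1) ε D → B n ε D

theorem Anti.le {B : BP} (h : Anti B) {n n' : ℕ} (hn : n ≤ n') {ε : Bool} {D : Finset ℕ}
    (hB : B n' ε D) : B n ε D := by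
  induction n', hn using Nat.le_induction with
  | base => exact hB
  | succ k _ ih => exact ih (h k ε D hB)

/-- The infinite sets containing blocks of all levels and types arbitrarily far out. -/
def LL (B : BP) (Z : Set ℕ) : Prop :=
  ∀ (n : ℕ) (ε : Bool) (m : ℕ), ∃ D : Finset ℕ, (D : Set ℕ) ⊆ Z ∧ (∀ x ∈ D, m < x) ∧ B n ε D

theorem LL.tail {B : BP} {Z : Set ℕ} (h : LL B Z) (m : ℕ) : LL B (Z ∩ {x | m < x}) := by
  intro n ε m'
  obtain ⟨D, hD, hm, hB⟩ := h n ε (max m m')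
  refine ⟨D, fun x hx => ⟨hD hx, ?_⟩, fun x hx => ?_, hB⟩
  · exact lt_of_le_of_lt (le_max_left _ _) (hm x hx)
  · exact lt_of_le_of_lt (le_max_right _ _) (hm x hx)

/-- pigeonhole: one of finitely many labels works for blocks of all levels -/
theorem pigeon {B : BP} (hanti : Anti B) (Z : Set ℕ) (ε : Bool) {ι : Type} [Finite ι]
    (R : ι → Finset ℕ → Prop)
    (h : ∀ n m, ∃ D : Finset ℕ, (D : Set ℕ) ⊆ Z ∧ (∀ x ∈ D, m < x) ∧ B n ε D ∧ ∃ i, R i D) :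
    ∃ i, ∀ n m, ∃ D : Finset ℕ, (D : Set ℕ) ⊆ Z ∧ (∀ x ∈ D, m < x) ∧ B n ε D ∧ R i D := by
  classical
  by_contra hcon
  push Not at hcon
  choose nn mm hnm using hcon
  have := Fintype.ofFinite ι
  obtain ⟨D, hD, hm, hB, i, hi⟩ := h (Finset.univ.sup nn) (Finset.univ.sup mm)
  refine hnm i D hD (fun x hx => lt_of_le_of_lt (Finset.le_sup (Finset.mem_univ i)) (hm x hx)) ?_ hi
  exact hanti.le (Finset.le_sup (Finset.mem_univ i)) hB

/-- points -/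
theorem LL.points {B : BP} {Q : ℕ} (hanti : Anti B) (h1 : H1 B Q) {Z : Set ℕ} (hZ : LL B Z)
    (K : ℕ) (c : ℕ → ℕ) (hc : ∀ x, c x < K) :
    ∃ Z' ⊆ Z, LL B Z' ∧ ∃ C : Finset ℕ, C.card ≤ 2 * Q ∧ ∀ x ∈ Z', c x ∈ C := by
  classical
  have key : ∀ ε : Bool, ∃ C : Finset ℕ, C.card ≤ Q ∧ ∀ n m, ∃ D : Finset ℕ,
      (D : Set ℕ) ⊆ Z ∧ (∀ x ∈ D, m < x) ∧ B n ε D ∧ ∀ x ∈ D, c x ∈ C := by
    intro ε
    obtain ⟨⟨C, hCQ⟩, hC⟩ := pigeon hanti Z ε
      (ι := {C : Finset (Fin K) // C.card ≤ Q})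
      (fun C D => ∀ x ∈ D, (⟨c x, hc x⟩ : Fin K) ∈ C.1) (by
        intro n m
        obtain ⟨D, hD, hm, hB⟩ := hZ (n + 1) ε (max m K)
        obtain ⟨D', hD', hB', C, hCQ, hC⟩ := h1 n ε D K c hB
          (fun x hx => ((le_max_right m K).trans_lt (hm x hx)).le) hc
        refine ⟨D', (Finset.coe_subset.mpr hD').trans hD,
          fun x hx => (le_max_left m K).trans_lt (hm x (hD' hx)), hB',
          ⟨(Finset.univ : Finset (Fin K)).filter (fun i => (i : ℕ) ∈ C), ?_⟩, ?_⟩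
        · refine le_trans ?_ hCQ
          refine Finset.card_le_card_of_injOn (fun i => (i : ℕ)) ?_ ?_
          · intro i hi
            exact (Finset.mem_filter.mp hi).2
          · intro a _ b _ hab
            exact Fin.ext hab
        · intro x hx
          exact Finset.mem_filter.mpr ⟨Finset.mem_univ _, hC x hx⟩)
    refine ⟨Finset.image (fun i : Fin K => (i : ℕ)) C, Finset.card_image_le.trans hCQ, ?_⟩
    intro n m
    obtain ⟨D, h1, h2, h3, h4⟩ := hC n m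
    refine ⟨D, h1, h2, h3, fun x hx => ?_⟩
    exact Finset.mem_image.mpr ⟨_, h4 x hx, rfl⟩
  choose C hCQ hC using key
  refine ⟨{x | x ∈ Z ∧ c x ∈ C true ∪ C false}, fun x hx => hx.1, ?_, C true ∪ C false, ?_, ?_⟩
  · intro n ε m
    obtain ⟨D, h1, h2, h3, h4⟩ := hC ε n m
    refine ⟨D, fun x hx => ⟨h1 hx, ?_⟩, h2, h3⟩
    have := h4 x hx
    cases ε
    · exact Finset.mem_union_right _ this
    · exact Finset.mem_union_left _ this
  · refine (Finset.card_union_le _ _).trans ?_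
    have h1 := hCQ true
    have h2 := hCQ false
    omega
  · intro x hx; exact hx.2

/-- points with an arbitrary finite palette -/
theorem LL.points' {B : BP} {Q : ℕ} (hanti : Anti B) (h1 : H1 B Q) {Z : Set ℕ} (hZ : LL B Z)
    {α : Type} [Finite α] (c : ℕ → α) :
    ∃ Z' ⊆ Z, LL B Z' ∧ ∃ C : Finset α, C.card ≤ 2 * Q ∧ ∀ x ∈ Z', c x ∈ C := by
  classical
  have := Fintype.ofFinite α
  let e := Fintype.equivFin α
  obtain ⟨Z', h1', h2', C, hC, h3⟩ := hZ.points hanti h1 (Fintype.card α) (fun x => (e (c x) : ℕ))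
    (fun x => (e (c x)).2)
  refine ⟨Z', h1', h2', (Finset.univ : Finset α).filter (fun a => ((e a : ℕ)) ∈ C), ?_, ?_⟩
  · refine le_trans ?_ hC
    refine Finset.card_le_card_of_injOn (fun a => ((e a : ℕ))) ?_ ?_
    · intro i hi
      exact (Finset.mem_filter.mp hi).2
    · intro a _ b _ hab
      exact e.injective (Fin.ext hab)
  · intro x hx
    exact Finset.mem_filter.mpr ⟨Finset.mem_univ _, h3 x hx⟩

end Pool.Agent.Helper617.FS
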