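import Pool.Agent.Helper617.FS.Comb1

/-!
Sequences of blocks, and colourings of pairs.
-/

namespace Pool.Agent.Helper617.FS

theorem build {B : BP} (Inv : Finset ℕ → Set ℕ → Prop)
    (R : Finset ℕ → Finset ℕ → Bool → Set ℕ → Prop) (W0 : Set ℕ) (h0 : Inv ∅ W0)
    (hstep : ∀ O W, Inv O W → ∀ (n : ℕ) (ε : Bool) (m : ℕ), ∃ (D : Finset ℕ) (W' : Set ℕ),
      (D : Set ℕ) ⊆ W ∧ (∀ x ∈ D, m < x) ∧ B n ε D ∧ W' ⊆ W ∧ Inv (O ∪ D) W' ∧ R O D ε W') :
    ∃ (O D : ℕ → Finset ℕ) (W : ℕ → Set ℕ), O 0 = ∅ ∧ W 0 = W0 ∧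
      (∀ j, O (j + 1) = O j ∪ D j ∧ (D j : Set ℕ) ⊆ W j ∧ W (j + 1) ⊆ W j ∧ Inv (O j) (W j) ∧
        ∃ ε, R (O j) (D j) ε (W (j + 1))) ∧
      LL B (⋃ j, (D j : Set ℕ)) := by
  classical
  choose! fD fW h1 h2 h3 h4 h5 h6 using hstep
  let req : ℕ → ℕ × Bool × ℕ := fun j =>
    (Encodable.decode (α := ℕ × Bool × ℕ) j).getD (0, false, 0)
  let st : ℕ → {p : Finset ℕ × Set ℕ // Inv p.1 p.2} := fun j =>
    Nat.rec (motive := fun _ => {p : Finset ℕ × Set ℕ // Inv p.1 p.2}) ⟨(∅, W0), h0⟩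
      (fun j s => ⟨(s.1.1 ∪ fD s.1.1 s.1.2 (req j).1 (req j).2.1 (req j).2.2,
        fW s.1.1 s.1.2 (req j).1 (req j).2.1 (req j).2.2), h5 _ _ s.2 _ _ _⟩) j
  have hst : ∀ j, (st (j + 1)).1 = ((st j).1.1 ∪ fD (st j).1.1 (st j).1.2 (req j).1 (req j).2.1
      (req j).2.2, fW (st j).1.1 (st j).1.2 (req j).1 (req j).2.1 (req j).2.2) := fun j => rfl
  refine ⟨fun j => (st j).1.1,
    fun j => fD (st j).1.1 (st j).1.2 (req j).1 (req j).2.1 (req j).2.2,
    fun j => (st j).1.2, rfl, rfl, ?_, ?_⟩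
  · intro j
    exact ⟨rfl, h1 _ _ (st j).2 _ _ _, h4 _ _ (st j).2 _ _ _, (st j).2, (req j).2.1,
      h6 _ _ (st j).2 _ _ _⟩
  · intro n ε m
    let j := Encodable.encode (n, ε, m)
    have hreq : req j = (n, ε, m) := by simp [req, j]
    refine ⟨fD (st j).1.1 (st j).1.2 (req j).1 (req j).2.1 (req j).2.2, ?_, ?_, ?_⟩
    · exact Set.subset_iUnion (fun j => ((fD (st j).1.1 (st j).1.2 (req j).1 (req j).2.1
        (req j).2.2 : Finset ℕ) : Set ℕ)) j
    · have := h2 _ _ (st j).2 (req j).1 (req j).2.1 (req j).2.2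
      intro x hx
      have h := this x hx
      rwa [hreq] at h
    · have := h3 _ _ (st j).2 (req j).1 (req j).2.1 (req j).2.2
      simp only [hreq] at this ⊢
      exact this

section seq
variable {O D : ℕ → Finset ℕ} {W : ℕ → Set ℕ}

theorem seq_mono (hW : ∀ j, W (j + 1) ⊆ W j) {i j : ℕ} (h : i ≤ j) : W j ⊆ W i := by
  induction j, h using Nat.le_induction with
  | base => exact subset_rfl
  | succ k _ ih => exact (hW k).trans ih

theorem seq_O (h0 : O 0 = ∅) (hO : ∀ j, O (j + 1) = O j ∪ D j) (j : ℕ) (x : ℕ) :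
    x ∈ O j ↔ ∃ i < j, x ∈ D i := by
  induction j with
  | zero => rw [h0]; simp
  | succ k ih =>
    rw [hO, Finset.mem_union, ih]
    constructor
    · rintro (⟨i, hi, hx⟩ | hx)
      · exact ⟨i, by omega, hx⟩
      · exact ⟨k, by omega, hx⟩
    · rintro ⟨i, hi, hx⟩
      by_cases h : i = k
      · right; rw [← h]; exact hx
      · left; exact ⟨i, by omega, hx⟩

theorem seq_cover (h0 : O 0 = ∅) (hO : ∀ j, O (j + 1) = O j ∪ D j)
    (hD : ∀ j, (D j : Set ℕ) ⊆ W j) (hW : ∀ j, W (j + 1) ⊆ W j) (j : ℕ) {x : ℕ}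
    (hx : x ∈ ⋃ j, (D j : Set ℕ)) : x ∈ O j ∨ x ∈ W j := by
  obtain ⟨i, hi⟩ := Set.mem_iUnion.mp hx
  rcases lt_or_ge i j with h | h
  · left; exact (seq_O h0 hO j x).mpr ⟨i, h, hi⟩
  · right; exact seq_mono hW h (hD i hi)

end seq

/-- pairs -/
theorem LL.pairs {B : BP} {P Q : ℕ} (hanti : Anti B) (h1 : H1 B Q) (h2 : H2 B P) {Z : Set ℕ}
    (hZ : LL B Z) (N : ℕ) (c : ℕ → ℕ → ℕ) (hc : ∀ x y, c x y < N) :
    ∃ Z' ⊆ Z, LL B Z' ∧ ∃ C : Finset ℕ, C.card ≤ 2 * P + (2 * Q) ^ 2 ∧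
      ∀ x ∈ Z', ∀ y ∈ Z', x < y → c x y ∈ C := by
  classical
  -- colours within blocks
  have key : ∀ ε : Bool, ∃ C : Finset ℕ, C.card ≤ P ∧ ∀ n m, ∃ D : Finset ℕ,
      (D : Set ℕ) ⊆ Z ∧ (∀ x ∈ D, m < x) ∧ B n ε D ∧
        ∀ x ∈ D, ∀ y ∈ D, x < y → c x y ∈ C := by
    intro ε
    obtain ⟨⟨C, hCQ⟩, hC⟩ := pigeon hanti Z ε
      (ι := {C : Finset (Fin N) // C.card ≤ P})
      (fun C D => ∀ x ∈ D, ∀ y ∈ D, x < y → (⟨c x y, hc x y⟩ : Fin N) ∈ C.1) (by
        intro n m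
        obtain ⟨D, hD, hm, hB⟩ := hZ (n + 1) ε (max m N)
        obtain ⟨D', hD', hB', C, hCQ, hC⟩ := h2 n ε D N c hB
          (fun x hx => ((le_max_right m N).trans_lt (hm x hx)).le) hc
        refine ⟨D', (Finset.coe_subset.mpr hD').trans hD,
          fun x hx => (le_max_left m N).trans_lt (hm x (hD' hx)), hB',
          ⟨(Finset.univ : Finset (Fin N)).filter (fun i => (i : ℕ) ∈ C), ?_⟩, ?_⟩
        · refine le_trans ?_ hCQ
          refine Finset.card_le_card_of_injOn (fun i => (i : ℕ)) ?_ ?_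
          · intro i hi
            exact (Finset.mem_filter.mp hi).2
          · intro a _ b _ hab
            exact Fin.ext hab
        · intro x hx y hy hxy
          exact Finset.mem_filter.mpr ⟨Finset.mem_univ _, hC x hx y hy hxy⟩)
    refine ⟨Finset.image (fun i : Fin N => (i : ℕ)) C, Finset.card_image_le.trans hCQ, ?_⟩
    intro n m
    obtain ⟨D, h1, h2, h3, h4⟩ := hC n m
    refine ⟨D, h1, h2, h3, fun x hx y hy hxy => ?_⟩
    exact Finset.mem_image.mpr ⟨_, h4 x hx y hy hxy, rfl⟩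
  choose S hSP hS using key
  let B' : BP := fun n ε D => B n ε D ∧ ∀ x ∈ D, ∀ y ∈ D, x < y → c x y ∈ S ε
  have hanti' : Anti B' := fun n ε D h => ⟨hanti n ε D h.1, h.2⟩
  have h1' : H1 B' Q := by
    intro n ε D K c' hB hK hc'
    obtain ⟨D', hD', hB', C, hC, hC'⟩ := h1 n ε D K c' hB.1 hK hc'
    exact ⟨D', hD', ⟨hB', fun x hx y hy => hB.2 x (hD' hx) y (hD' hy)⟩, C, hC, hC'⟩
  have hZ' : LL B' Z := by
    intro n ε m
    obtain ⟨D, h1, h2, h3, h4⟩ := hS ε n m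
    exact ⟨D, h1, h2, h3, h4⟩
  obtain ⟨O, D, W, hO0, hW0, hj, hLL⟩ := build (B := B') (fun _ W => LL B' W)
    (fun _ D ε W' => (∀ x ∈ D, ∀ w ∈ W', x < w) ∧ (∀ x ∈ D, ∀ y ∈ D, x < y → c x y ∈ S ε) ∧
      ∀ x ∈ D, ∃ C : Finset (Fin N), C.card ≤ 2 * Q ∧ ∀ y ∈ W', (⟨c x y, hc x y⟩ : Fin N) ∈ C)
    Z hZ' (by
      intro O W hW n ε m
      obtain ⟨D, hD, hm, hB⟩ := hW n ε m
      have hW1 := hW.tail (D.sup id)
      obtain ⟨W', hW', hLL', C, hC, hC'⟩ := hW1.points' hanti' h1'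
        (fun y => fun x : D => (⟨c x y, hc x y⟩ : Fin N))
      refine ⟨D, W', hD, hm, hB, fun x hx => (hW' hx).1, hLL', ?_, hB.2, ?_⟩
      · intro x hx w hw
        exact lt_of_le_of_lt (Finset.le_sup (f := id) hx) (hW' hw).2
      · intro x hx
        refine ⟨C.image (fun f => f ⟨x, hx⟩), Finset.card_image_le.trans hC, ?_⟩
        intro y hy
        exact Finset.mem_image.mpr ⟨_, hC' y hy, rfl⟩)
  have hO := fun j => (hj j).1
  have hD := fun j => (hj j).2.1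
  have hW := fun j => (hj j).2.2.1
  set Z' : Set ℕ := ⋃ j, (D j : Set ℕ) with hZ'def
  have hZ'Z : Z' ⊆ Z := by
    intro x hx
    obtain ⟨j, hj'⟩ := Set.mem_iUnion.mp hx
    have := seq_mono hW (Nat.zero_le j) (hD j hj')
    rwa [hW0] at this
  let col : ℕ → Finset (Fin N) := fun x => Finset.univ.filter (fun v =>
    (∃ y ∈ Z', x < y ∧ c x y = v) ∧ (v : ℕ) ∉ S true ∪ S false)
  have hcol : ∀ x ∈ Z', (col x).card ≤ 2 * Q := by
    intro x hx
    obtain ⟨j, hxj⟩ := Set.mem_iUnion.mp hx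
    obtain ⟨ε, hR1, hR2, hR3⟩ := (hj j).2.2.2.2
    obtain ⟨C, hC, hC'⟩ := hR3 x hxj
    refine le_trans (Finset.card_le_card ?_) hC
    intro v hv
    obtain ⟨⟨y, hy, hxy, hcv⟩, hvS⟩ := (Finset.mem_filter.mp hv).2
    rcases seq_cover hO0 hO hD hW (j + 1) hy with h | h
    · exfalso
      obtain ⟨i, hi, hyi⟩ := (seq_O hO0 hO (j + 1) y).mp h
      by_cases hij : i = j
      · subst hij
        have h4 := hR2 x hxj y hyi hxy
        rw [hcv] at h4
        apply hvS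
        cases ε
        · exact Finset.mem_union_right _ h4
        · exact Finset.mem_union_left _ h4
      · have hij' : i + 1 ≤ j := by omega
        obtain ⟨ε', hR1', _, _⟩ := (hj i).2.2.2.2
        have := hR1' y hyi x (seq_mono hW hij' (hD j hxj))
        omega
    · have := hC' y h
      rw [Fin.ext_iff.mpr (show ((⟨c x y, hc x y⟩ : Fin N) : ℕ) = (v : ℕ) from hcv)] at this
      exact this
  obtain ⟨Z'', hZ'', hLL'', CC, hCC, hCC'⟩ := hLL.points' hanti' h1' col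
  refine ⟨Z'', hZ''.trans hZ'Z, ?_, S true ∪ S false ∪
    ((CC.filter (fun A => A.card ≤ 2 * Q)).biUnion id).image (fun v : Fin N => (v : ℕ)), ?_, ?_⟩
  · intro n ε m
    obtain ⟨D', h1, h2, h3⟩ := hLL'' n ε m
    exact ⟨D', h1, h2, h3.1⟩
  · refine (Finset.card_union_le _ _).trans ?_
    have e1 : (S true ∪ S false).card ≤ 2 * P := by
      refine (Finset.card_union_le _ _).trans ?_
      have := hSP true
      have := hSP false
      omega
    have e2 : (((CC.filter (fun A => A.card ≤ 2 * Q)).biUnion id).image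
        (fun v : Fin N => (v : ℕ))).card ≤ (2 * Q) ^ 2 := by
      refine Finset.card_image_le.trans ?_
      refine (Finset.card_biUnion_le_card_mul _ _ (2 * Q) ?_).trans ?_
      · intro A hA
        exact (Finset.mem_filter.mp hA).2
      · rw [sq]
        exact Nat.mul_le_mul_right _ ((Finset.card_filter_le _ _).trans hCC)
    omega
  · intro x hx y hy hxy
    by_cases hS' : c x y ∈ S true ∪ S false
    · exact Finset.mem_union_left _ hS'
    · apply Finset.mem_union_right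
      refine Finset.mem_image.mpr ⟨⟨c x y, hc x y⟩, ?_, rfl⟩
      refine Finset.mem_biUnion.mpr ⟨col x, ?_, ?_⟩
      · exact Finset.mem_filter.mpr ⟨hCC' x hx, hcol x (hZ'' hx)⟩
      · exact Finset.mem_filter.mpr ⟨Finset.mem_univ _, ⟨y, hZ'' hy, hxy, rfl⟩, hS'⟩

end Pool.Agent.Helper617.FS
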