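import Pool.Agent.Helper617.FS.Comb2

/-!
Free sets.
-/

namespace Pool.Agent.Helper617.FS

theorem many {Φ : Finset ℕ → Prop} (h : ∀ m, ∃ D, Φ D ∧ ∀ x ∈ D, m < x) :
    ∃ D : ℕ → Finset ℕ, (∀ i, Φ (D i)) ∧ ∀ i j, i < j → ∀ x ∈ D i, ∀ y ∈ D j, x < y := by
  classical
  choose f hf1 hf2 using h
  let mm : ℕ → ℕ := fun i => Nat.rec 0 (fun _ m => max m ((f m).sup id)) i
  have hmm : ∀ i, mm (i + 1) = max (mm i) ((f (mm i)).sup id) := fun i => rfl
  have hmono : ∀ i j, i ≤ j → mm i ≤ mm j := by
    intro i j hij
    induction j, hij using Nat.le_induction with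
    | base => exact le_rfl
    | succ k _ ih => rw [hmm]; exact ih.trans (le_max_left _ _)
  refine ⟨fun i => f (mm i), fun i => hf1 _, ?_⟩
  intro i j hij x hx y hy
  have h1 : x ≤ mm (i + 1) := by
    rw [hmm]
    exact (Finset.le_sup (f := id) hx).trans (le_max_right _ _)
  have h2 := hf2 (mm j) y hy
  have h3 := hmono (i + 1) j hij
  omega

theorem LL.free {B : BP} {P Q : ℕ} (hanti : Anti B) (h1 : H1 B Q) (h2 : H2 B P) (h3 : H3 B)
    {Z : Set ℕ} (hZ : LL B Z) (g : ℕ → ℕ → ℕ) : ∃ Z' ⊆ Z, LL B Z' ∧ FreeP g Z' := by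
  classical
  obtain ⟨O, D, W, hO0, hW0, hj, hLL⟩ := build (B := B)
    (fun O W => LL B W ∧ (∀ x ∈ O, ∀ w ∈ W, x < w) ∧ (∀ x ∈ W, ∀ y ∈ W, x < y → g x y ∉ O) ∧
      (∀ x ∈ O, ∀ y ∈ W, g x y ∈ O → g x y = x) ∧ (∀ x ∈ O, ∀ y ∈ O, x < y → g x y ∉ W) ∧
      FreeP g (O : Set ℕ))
    (fun _ _ _ _ => True) Z
    ⟨hZ, by simp, by simp, by simp, by simp, by intro x hx; simp at hx⟩ (by
      rintro O W ⟨hW, hOW, hI1, hI2, hI3, hI4⟩ n ε m
      set Nq : ℕ := (2 * P + (2 * Q) ^ 2) + 2 * Q * O.card + 1 with hNq
      -- candidate blocks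
      obtain ⟨D, hD, hDD⟩ := many (Φ := fun D => (D : Set ℕ) ⊆ W ∧ B (n + 1) ε D ∧
          (∀ x ∈ D, m < x) ∧ (∀ x ∈ D, 2 * Q ≤ x) ∧ FreeP g (D : Set ℕ) ∧
          ∀ x ∈ O, FreeU (g x) (D : Set ℕ)) (by
        intro m'
        obtain ⟨D, hD1, hD2, hD3⟩ := hW (n + 1 + 1) ε (max (max m m') (max (2 * Q) (O.sup id + 1)))
        obtain ⟨D', hD', hB', hfree⟩ := h3 (n + 1) ε D (O.sup id + 1) (fun _ => g) (fun i y => g i y)
          hD3 (fun x hx => by
            have := hD2 x hx
            have := le_max_right (max m m') (max (2 * Q) (O.sup id + 1))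
            have := le_max_right (2 * Q) (O.sup id + 1)
            omega)
        refine ⟨D', ⟨(Finset.coe_subset.mpr hD').trans hD1, hB', ?_, ?_, (hfree 0 (by omega)).1,
          ?_⟩, ?_⟩
        · intro x hx
          have := hD2 x (hD' hx)
          have := le_max_left (max m m') (max (2 * Q) (O.sup id + 1))
          have := le_max_left m m'
          omega
        · intro x hx
          have := hD2 x (hD' hx)
          have := le_max_right (max m m') (max (2 * Q) (O.sup id + 1))
          have := le_max_left (2 * Q) (O.sup id + 1)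
          omega
        · intro x hx
          exact (hfree x (Nat.lt_succ_of_le (Finset.le_sup (f := id) hx))).2
        · intro x hx
          have := hD2 x (hD' hx)
          have := le_max_left (max m m') (max (2 * Q) (O.sup id + 1))
          have := le_max_right m m'
          omega)
      set Dall : Finset ℕ := (Finset.range Nq).biUnion D with hDall
      set A : Finset ℕ := O ∪ Dall with hA
      have hW1 := hW.tail (A.sup id)
      -- behaviour of the pairs `x ∈ A`, `y ∈ W`
      obtain ⟨W2, hW2, hLL2, Γ, hΓ, hΓ'⟩ := hW1.points' hanti h1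
        (fun y => fun x : A => if h : g x y ∈ A then (some ⟨g x y, h⟩ : Option A) else none)
      let γ : (A → Option A) → ℕ → ℕ := fun f x =>
        if h : x ∈ A then (match f ⟨x, h⟩ with
          | some z => (z : ℕ)
          | none => x) else x
      have hγ : ∀ y ∈ W2, ∃ f ∈ Γ, ∀ x ∈ A, g x y ∈ A → γ f x = g x y := by
        intro y hy
        refine ⟨_, hΓ' y hy, ?_⟩
        intro x hx hg
        simp only [γ, hx, dif_pos, hg]
      -- free subblocks
      have hB : ∀ i, ∃ D' ⊆ D i, B n ε D' ∧ ∀ f ∈ Γ, FreeU (γ f) (D' : Set ℕ) := by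
        intro i
        let e := Γ.equivFin
        obtain ⟨D', hD', hB', hfree⟩ := h3 n ε (D i) Γ.card (fun _ => g)
          (fun i => if h : i < Γ.card then γ (e.symm ⟨i, h⟩ : A → Option A) else id)
          (hD i).2.1 (fun x hx => hΓ.trans ((hD i).2.2.2.1 x hx))
        refine ⟨D', hD', hB', ?_⟩
        intro f hf
        have := (hfree (e ⟨f, hf⟩) (e ⟨f, hf⟩).2).2
        simpa using this
      choose E hED hEB hEfree using hB
      have hEW : ∀ i, ∀ x ∈ E i, x ∈ W := fun i x hx => (hD i).1 (hED i hx)
      have hEdisj : ∀ i j, ∀ x, x ∈ E i → x ∈ E j → i = j := by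
        intro i j x hi hj
        rcases lt_trichotomy i j with h | h | h
        · exact absurd (hDD i j h x (hED i hi) x (hED j hj)) (lt_irrefl _)
        · exact h
        · exact absurd (hDD j i h x (hED j hj) x (hED i hi)) (lt_irrefl _)
      -- index of the block containing a point
      let idx : ℕ → ℕ := fun z => if h : ∃ i < Nq, z ∈ E i then h.choose else Nq
      have hidx : ∀ z i, i < Nq → z ∈ E i → idx z = i := by
        intro z i hi hz
        have h : ∃ i < Nq, z ∈ E i := ⟨i, hi, hz⟩
        have : idx z = h.choose := dif_pos h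
        rw [this]
        exact hEdisj _ _ z h.choose_spec.2 hz
      have hidxlt : ∀ z, idx z < Nq + 1 := by
        intro z
        by_cases h : ∃ i < Nq, z ∈ E i
        · have : idx z = h.choose := dif_pos h
          rw [this]
          exact Nat.lt_succ_of_lt h.choose_spec.1
        · have : idx z = Nq := dif_neg h
          omega
      obtain ⟨W3, hW3, hLL3, C3, hC3, hC3'⟩ := hLL2.pairs hanti h1 h2 (Nq + 1)
        (fun x y => idx (g x y)) (fun x y => hidxlt _)
      -- choose a surviving block
      obtain ⟨i, hi, hiC, hiK⟩ : ∃ i < Nq, i ∉ C3 ∧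
          i ∉ Γ.biUnion (fun f => O.image (fun x => idx (γ f x))) := by
        by_contra hcon
        push Not at hcon
        have hsub : Finset.range Nq ⊆ C3 ∪ Γ.biUnion (fun f => O.image (fun x => idx (γ f x))) := by
          intro i hi
          rw [Finset.mem_union]
          by_cases h : i ∈ C3
          · exact Or.inl h
          · exact Or.inr (hcon i (Finset.mem_range.mp hi) h)
        have hc := Finset.card_le_card hsub
        rw [Finset.card_range] at hc
        have hc2 : (Γ.biUnion (fun f => O.image (fun x => idx (γ f x)))).card ≤ 2 * Q * O.card := by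
          refine (Finset.card_biUnion_le_card_mul _ _ O.card ?_).trans
            (Nat.mul_le_mul_right _ hΓ)
          intro f _
          exact Finset.card_image_le
        have hc3 := Finset.card_union_le C3 (Γ.biUnion (fun f => O.image (fun x => idx (γ f x))))
        omega
      have hEA : ∀ x ∈ E i, x ∈ A := by
        intro x hx
        exact Finset.mem_union_right _ (Finset.mem_biUnion.mpr ⟨i, Finset.mem_range.mpr hi,
          hED i hx⟩)
      set bd : ℕ := ((O ∪ E i) ×ˢ (O ∪ E i)).sup (fun p => g p.1 p.2) with hbd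
      have hLL4 := hLL3.tail bd
      have hW4W : W3 ∩ {x | bd < x} ⊆ W := fun x hx => (hW2 (hW3 hx.1)).1
      have hAlt : ∀ x ∈ A, ∀ w ∈ W3 ∩ {x | bd < x}, x < w := by
        intro x hx w hw
        exact lt_of_le_of_lt (Finset.le_sup (f := id) hx) (hW2 (hW3 hw.1)).2
      refine ⟨E i, W3 ∩ {x | bd < x}, fun x hx => hEW i x hx, fun x hx => (hD i).2.2.1 x (hED i hx),
        hEB i, hW4W, ⟨hLL4, ?_, ?_, ?_, ?_, ?_⟩, trivial⟩
      · intro x hx w hw
        rcases Finset.mem_union.mp hx with h | h
        · exact hOW x h w (hW4W hw)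
        · exact hAlt x (hEA x h) w hw
      · intro x hx y hy hxy hg
        rcases Finset.mem_union.mp hg with h | h
        · exact hI1 x (hW4W hx) y (hW4W hy) hxy h
        · have := hC3' x hx.1 y hy.1 hxy
          rw [hidx _ i hi h] at this
          exact hiC this
      · intro x hx y hy hg
        obtain ⟨f, hf, hfx⟩ := hγ y (hW3 hy.1)
        rcases Finset.mem_union.mp hx with hxO | hxE
        · rcases Finset.mem_union.mp hg with h | h
          · exact hI2 x hxO y (hW4W hy) h
          · exfalso
            have h5 := hfx x (Finset.mem_union_left _ hxO) (hEA _ h)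
            apply hiK
            refine Finset.mem_biUnion.mpr ⟨f, hf, Finset.mem_image.mpr ⟨x, hxO, ?_⟩⟩
            rw [h5]
            exact hidx _ i hi h
        · have hxy : x < y := hAlt x (hEA x hxE) y hy
          rcases Finset.mem_union.mp hg with h | h
          · exact absurd h (hI1 x (hEW i x hxE) y (hW4W hy) hxy)
          · have h5 := hfx x (hEA x hxE) (hEA _ h)
            have h6 := hEfree i f hf x hxE
            rw [h5] at h6
            exact h6 h
      · intro x hx y hy _ hg
        have h5 : g x y ≤ bd := Finset.le_sup (f := fun p : ℕ × ℕ => g p.1 p.2)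
          (Finset.mem_product.mpr ⟨hx, hy⟩ : (x, y) ∈ (O ∪ E i) ×ˢ (O ∪ E i))
        have h6 := hg.2
        simp only [Set.mem_ofPred_eq] at h6
        omega
      · intro x hx y hy hxy hg
        rw [Finset.coe_union, Set.mem_union] at hx hy hg
        rcases hx with hx | hx <;> rcases hy with hy | hy
        · rcases hg with hg | hg
          · exact hI4 x hx y hy hxy hg
          · exact absurd (hEW i _ hg) (hI3 x hx y hy hxy)
        · rcases hg with hg | hg
          · exact Or.inl (hI2 x hx y (hEW i y hy) hg)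
          · right
            exact (hD i).2.2.2.2.2 x hx y (hED i hy) (hED i hg)
        · exfalso
          have := hOW y hy x (hEW i x hx)
          omega
        · rcases hg with hg | hg
          · exact absurd hg (hI1 x (hEW i x hx) y (hEW i y hy) hxy)
          · exact (hD i).2.2.2.2.1 x (hED i hx) y (hED i hy) hxy (hED i hg))
  have hO := fun j => (hj j).1
  have hD := fun j => (hj j).2.1
  have hW := fun j => (hj j).2.2.1
  refine ⟨⋃ j, (D j : Set ℕ), ?_, hLL, ?_⟩
  · intro x hx
    obtain ⟨j, hj'⟩ := Set.mem_iUnion.mp hx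
    have := seq_mono hW (Nat.zero_le j) (hD j hj')
    rwa [hW0] at this
  · intro x hx y hy hxy hg
    obtain ⟨j1, h1⟩ := Set.mem_iUnion.mp hx
    obtain ⟨j2, h2⟩ := Set.mem_iUnion.mp hy
    obtain ⟨j3, h3⟩ := Set.mem_iUnion.mp hg
    let J := max j1 (max j2 j3) + 1
    have e1 : x ∈ O J := (seq_O hO0 hO J x).mpr ⟨j1, by omega, h1⟩
    have e2 : y ∈ O J := (seq_O hO0 hO J y).mpr ⟨j2, by omega, h2⟩
    have e3 : g x y ∈ O J := (seq_O hO0 hO J _).mpr ⟨j3, by omega, h3⟩
    exact (hj J).2.2.2.1.2.2.2.2.2 x e1 y e2 hxy e3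

end Pool.Agent.Helper617.FS
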