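import Pool.Agent.Helper617.FS.Comb4

/-!
The hierarchy of large finite sets relative to a colouring by bits, and existence.
-/

namespace Pool.Agent.Helper617.FS

/-- constants -/
def Qc : ℕ → ℕ
  | 0 => 1
  | r + 1 => 2 * Qc r

/-- constants -/
def Pc : ℕ → ℕ
  | 0 => 0
  | r + 1 => 2 * Pc r + (2 * Qc r) ^ 2

/-- blocks: the bit `r` is constant on the convex hull and the set is large -/
def blk (col : ℕ → ℕ → Bool) (r : ℕ) (L : ℕ → Finset ℕ → Prop) : BP := fun n ε D =>
  D.Nonempty ∧ (∀ x, (∃ a ∈ D, a ≤ x) → (∃ b ∈ D, x ≤ b) → col x r = ε) ∧ L n D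

/-- the hierarchy: `Lg col r n Y` -/
def Lg (col : ℕ → ℕ → Bool) : ℕ → ℕ → Finset ℕ → Prop
  | 0 => fun _ Y => Y.Nonempty
  | r + 1 => game (blk col r (Lg col r)) (Pc (r + 1)) (Qc (r + 1))

theorem blk_anti {col : ℕ → ℕ → Bool} {r : ℕ} {L : ℕ → Finset ℕ → Prop}
    (h : ∀ n D, L (n + 1) D → L n D) : Anti (blk col r L) :=
  fun n _ D hD => ⟨hD.1, hD.2.1, h n D hD.2.2⟩

theorem blk_ne {col : ℕ → ℕ → Bool} {r : ℕ} {L : ℕ → Finset ℕ → Prop} (n : ℕ) (ε : Bool)
    (D : Finset ℕ) (h : blk col r L n ε D) : D.Nonempty := h.1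

theorem blk_sub {col : ℕ → ℕ → Bool} {r : ℕ} {L : ℕ → Finset ℕ → Prop} {n n' : ℕ} {ε : Bool}
    {D D' : Finset ℕ} (h : blk col r L n ε D) (hs : D' ⊆ D) (hne : D'.Nonempty) (hL : L n' D') :
    blk col r L n' ε D' := by
  refine ⟨hne, ?_, hL⟩
  rintro x ⟨a, ha, hax⟩ ⟨b, hb, hxb⟩
  exact h.2.1 x ⟨a, hs ha, hax⟩ ⟨b, hs hb, hxb⟩

theorem Lg_anti (col : ℕ → ℕ → Bool) (r n : ℕ) (D : Finset ℕ) (h : Lg col r (n + 1) D) :
    Lg col r n D := by
  cases r with
  | zero => exact h
  | succ r => exact h.1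

theorem Lg_ne (col : ℕ → ℕ → Bool) (r n : ℕ) (D : Finset ℕ) (h : Lg col r n D) :
    D.Nonempty := by
  cases r with
  | zero => exact h
  | succ r => exact game_nonempty n h

theorem Lg_le {col : ℕ → ℕ → Bool} {r n n' : ℕ} (hn : n ≤ n') {D : Finset ℕ}
    (h : Lg col r n' D) : Lg col r n D := by
  induction n', hn using Nat.le_induction with
  | base => exact h
  | succ k _ ih => exact ih (Lg_anti col r k D h)

theorem blk_H1 (col : ℕ → ℕ → Bool) (r : ℕ) : H1 (blk col r (Lg col r)) (Qc r) := by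
  intro n ε D K c hB hK hc
  cases r with
  | zero =>
    obtain ⟨x, hx⟩ := hB.1
    refine ⟨{x}, Finset.singleton_subset_iff.mpr hx,
      blk_sub hB (Finset.singleton_subset_iff.mpr hx) (Finset.singleton_nonempty x)
        (Finset.singleton_nonempty x), {c x}, by simp [Qc], ?_⟩
    intro y hy
    rw [Finset.mem_singleton] at hy
    rw [hy]; simp
  | succ r =>
    obtain ⟨Y', h1, h2, h3⟩ := hB.2.2.2.2.2.2.2.2 K c hK hc
    exact ⟨Y', h1, blk_sub hB h1 (game_nonempty n h2) h2, h3⟩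

theorem blk_H2 (col : ℕ → ℕ → Bool) (r : ℕ) : H2 (blk col r (Lg col r)) (Pc r) := by
  intro n ε D K c hB hK hc
  cases r with
  | zero =>
    obtain ⟨x, hx⟩ := hB.1
    refine ⟨{x}, Finset.singleton_subset_iff.mpr hx,
      blk_sub hB (Finset.singleton_subset_iff.mpr hx) (Finset.singleton_nonempty x)
        (Finset.singleton_nonempty x), ∅, by simp, ?_⟩
    intro y hy z hz hyz
    rw [Finset.mem_singleton] at hy hz
    omega
  | succ r =>
    obtain ⟨Y', h1, h2, h3⟩ := hB.2.2.2.2.2.2.2.1 K c hK hc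
    exact ⟨Y', h1, blk_sub hB h1 (game_nonempty n h2) h2, h3⟩

theorem blk_H3 (col : ℕ → ℕ → Bool) (r : ℕ) : H3 (blk col r (Lg col r)) := by
  intro n ε D k g γ hB hk
  cases r with
  | zero =>
    obtain ⟨x, hx⟩ := hB.1
    refine ⟨{x}, Finset.singleton_subset_iff.mpr hx,
      blk_sub hB (Finset.singleton_subset_iff.mpr hx) (Finset.singleton_nonempty x)
        (Finset.singleton_nonempty x), ?_⟩
    intro i _
    constructor
    · intro y hy z hz hyz
      rw [Finset.coe_singleton, Set.mem_singleton_iff] at hy hz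
      omega
    · intro y hy hg
      rw [Finset.coe_singleton, Set.mem_singleton_iff] at hy hg
      omega
  | succ r =>
    obtain ⟨Y', h1, h2, h3⟩ := hB.2.2.2.2.1 k g γ hk
    exact ⟨Y', h1, blk_sub hB h1 (game_nonempty n h2) h2, h3⟩

/-- compactness at level `r + 1` -/
theorem exists_Lg (col : ℕ → ℕ → Bool) (r : ℕ) {Z : Set ℕ} (hZ : LL (blk col r (Lg col r)) Z)
    (n : ℕ) : ∃ t, Lg col (r + 1) n (cut Z t) :=
  LL.game (blk_anti fun n D h => Lg_anti col r n D h) (blk_H1 col r) (blk_H2 col r)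
    (blk_H3 col r) blk_ne n Z hZ

theorem game_congr {B B' : BP} {P Q : ℕ} : ∀ (n : ℕ) {Y : Finset ℕ},
    (∀ n ε D, D ⊆ Y → B n ε D → B' n ε D) → game B P Q n Y → game B' P Q n Y
  | 0, _, _, h => h
  | n + 1, Y, hB, h => by
    obtain ⟨h0, h1, h2, h3, h4, h5, h6⟩ := h
    have key : ∀ Y' ⊆ Y, game B P Q n Y' → game B' P Q n Y' := fun Y' hY' h' =>
      game_congr n (fun n ε D hD => hB n ε D (hD.trans hY')) h'
    refine ⟨key Y subset_rfl h0, ?_, ?_, ?_, ?_, ?_, ?_⟩
    · intro ε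
      obtain ⟨D, hD, hBD⟩ := h1 ε
      exact ⟨D, hD, hB n ε D hD hBD⟩
    · intro k g γ hk
      obtain ⟨Y', e1, e2, e3⟩ := h2 k g γ hk
      exact ⟨Y', e1, key Y' e1 e2, e3⟩
    · intro H hk
      obtain ⟨Y', e1, e2, e3⟩ := h3 H hk
      exact ⟨Y', e1, key Y' e1 e2, e3⟩
    · obtain ⟨x, hx, Y', e1, e2, e3⟩ := h4
      exact ⟨x, hx, Y', e1, key Y' e1 e2, e3⟩
    · intro k c hk hc
      obtain ⟨Y', e1, e2, e3⟩ := h5 k c hk hc
      exact ⟨Y', e1, key Y' e1 e2, e3⟩
    · intro k c hk hc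
      obtain ⟨Y', e1, e2, e3⟩ := h6 k c hk hc
      exact ⟨Y', e1, key Y' e1 e2, e3⟩

theorem Lg_congr {col col' : ℕ → ℕ → Bool} : ∀ (r n : ℕ) {D : Finset ℕ},
    (∀ x, (∃ a ∈ D, a ≤ x) → (∃ b ∈ D, x ≤ b) → ∀ k < r, col x k = col' x k) →
    Lg col r n D → Lg col' r n D
  | 0, _, _, _, h => h
  | r + 1, n, D, hcol, h => by
    refine game_congr n ?_ h
    intro n' ε E hE hB
    have hh : ∀ x, (∃ a ∈ E, a ≤ x) → (∃ b ∈ E, x ≤ b) → ∀ k < r + 1, col x k = col' x k := by
      rintro x ⟨a, ha, hax⟩ ⟨b, hb, hxb⟩ k hk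
      exact hcol x ⟨a, hE ha, hax⟩ ⟨b, hE hb, hxb⟩ k hk
    refine ⟨hB.1, ?_, ?_⟩
    · intro x h1 h2
      rw [← hh x h1 h2 r (Nat.lt_succ_self r)]
      exact hB.2.1 x h1 h2
    · exact Lg_congr r n' (fun x h1 h2 k hk => hh x h1 h2 k (by omega)) hB.2.2

/-- existence of large intervals for a suitable colouring -/
theorem exists_large (r : ℕ) : ∀ n m : ℕ, ∃ (t : ℕ) (col : ℕ → ℕ → Bool), m ≤ t ∧
    Lg col r n (Finset.Icc m t) := by
  classical
  induction r with
  | zero => exact fun n m => ⟨m, fun _ _ => false, le_rfl, by simp [Lg]⟩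
  | succ r ih =>
    choose tt cc htt hcc using ih
    -- requirements
    let req : ℕ → ℕ × Bool := fun j => (Encodable.decode (α := ℕ × Bool) j.unpair.1).getD (0, false)
    let a : ℕ → ℕ := fun j => Nat.rec 0 (fun j a => tt (req j).1 a + 1) j
    have ha : ∀ j, a (j + 1) = tt (req j).1 (a j) + 1 := fun j => rfl
    have ha' : ∀ j, a j < a (j + 1) := fun j => by
      rw [ha]; exact Nat.lt_succ_of_le (htt _ _)
    have hamono : StrictMono a := strictMono_nat_of_lt_succ ha'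
    have hex : ∀ x, ∃ j, x < a (j + 1) := fun x => ⟨x, lt_of_lt_of_le (Nat.lt_succ_self x)
      (hamono.id_le (x + 1))⟩
    let jj : ℕ → ℕ := fun x => Nat.find (hex x)
    have hjj : ∀ j x, a j ≤ x → x < a (j + 1) → jj x = j := by
      intro j x h1 h2
      refine le_antisymm (Nat.find_min' (hex x) h2) ?_
      by_contra hcon
      push Not at hcon
      have h3 : x < a (jj x + 1) := Nat.find_spec (hex x)
      have h4 : a (jj x + 1) ≤ a j := hamono.monotone hcon
      omega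
    let col : ℕ → ℕ → Bool := fun x k =>
      if k = r then (req (jj x)).2 else cc (req (jj x)).1 (a (jj x)) x k
    have hLL : LL (blk col r (Lg col r)) Set.univ := by
      intro n ε m
      let j := Nat.pair (Encodable.encode (n, ε)) (m + 1)
      have hreq : req j = (n, ε) := by simp [req, j]
      have hjm : m + 1 ≤ j := Nat.right_le_pair _ _
      have hint : ∀ x, (∃ b ∈ Finset.Icc (a j) (tt n (a j)), b ≤ x) →
          (∃ b ∈ Finset.Icc (a j) (tt n (a j)), x ≤ b) → jj x = j := by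
        rintro x ⟨b, hb, hbx⟩ ⟨c, hc, hxc⟩
        rw [Finset.mem_Icc] at hb hc
        refine hjj j x (by omega) ?_
        rw [ha, hreq]
        simp only
        omega
      refine ⟨Finset.Icc (a j) (tt n (a j)), Set.subset_univ _, ?_, ?_, ?_, ?_⟩
      · intro x hx
        rw [Finset.mem_Icc] at hx
        have := hamono.id_le j
        simp only [id] at this
        omega
      · exact ⟨a j, Finset.mem_Icc.mpr ⟨le_rfl, htt _ _⟩⟩
      · intro x h1 h2
        simp only [col, if_true, hint x h1 h2, hreq]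
      · refine Lg_congr r n ?_ (hcc n (a j))
        intro x h1 h2 k hk
        simp only [col, hint x h1 h2, hreq, if_neg (show k ≠ r by omega)]
    intro n m
    have hLL' : LL (blk col r (Lg col r)) {x | m ≤ x} := by
      intro n' ε m'
      obtain ⟨D, _, h2, h3⟩ := hLL n' ε (max m m')
      refine ⟨D, fun x hx => ?_, fun x hx => ?_, h3⟩
      · have := h2 x hx
        have h5 := le_max_left m m'
        show m ≤ x
        omega
      · have := h2 x hx
        have h5 := le_max_right m m'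
        omega
    obtain ⟨t, ht⟩ := exists_Lg col r hLL' n
    refine ⟨max m t, col, le_max_left _ _, ?_⟩
    refine game_mono n ?_ ht
    intro x hx
    rw [mem_cut] at hx
    rw [Finset.mem_Icc]
    exact ⟨hx.2, hx.1.trans (le_max_right _ _)⟩

end Pool.Agent.Helper617.FS
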