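import Mathlib
import Pool.Agent.Helper617.RM.Defs
import Pool.Agent.Helper617.RM.Orders

/-!
The free set principle for pairs and the bounding scheme in a structure for second-order
arithmetic.
-/

namespace Pool.Agent.Helper617.FS

open Pool.Agent.Helper617.RM

universe u

variable (N : L2Structure.{u})

/-- The function `f` on two-element subsets (used only for arguments `x < y`) exists in the
structure: the set of codes of the triples `(x, y, f x y)` is one of its sets. -/
def PairFunIn (f : N.M → N.M → N.M) : Prop :=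
  {p | ∃ x y, N.lt x y ∧ p = N.pair (N.pair x y) (f x y)} ∈ N.Sets

/-- The free set principle for pairs: every function `f` on pairs has an infinite set `A` such
that for all `x < y` in `A`, if `f(x, y)` is in `A` then it is `x` or `y`. -/
def FreeSetPairs : Prop :=
  ∀ f : N.M → N.M → N.M, PairFunIn N f → ∃ A ∈ N.Sets, ¬ IsFin N A ∧
    ∀ x ∈ A, ∀ y ∈ A, N.lt x y → f x y ∈ A → f x y = x ∨ f x y = y

/-- The bounding scheme for `Σ⁰₂` formulas `∃ k ∀ l θ(l, k, j, i)` with parameters. -/
def SigmaTwoBounding : Prop :=
  ∀ (θ : Delta0 N) (v : ℕ → N.M) (a : N.M),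
    (∀ i, N.lt i a → ∃ j, ∃ k, ∀ l, θ.Holds (cons l (cons k (cons j (cons i v))))) →
    ∃ b, ∀ i, N.lt i a → ∃ j, N.lt j b ∧
      ∃ k, ∀ l, θ.Holds (cons l (cons k (cons j (cons i v))))

end Pool.Agent.Helper617.FS
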