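import Pool.Agent.Helper617.FS.Comb5

/-!
Standard data, step functions, codes of internal functions.
-/

namespace Pool.Agent.Helper617.FS

open Filter

/-! ### standard data -/

noncomputable def TT (t : ℕ) : ℕ := (exists_large t t (2 ^ t + 1)).choose

noncomputable def cc (t : ℕ) : ℕ → ℕ → Bool := (exists_large t t (2 ^ t + 1)).choose_spec.choose

theorem TT_spec (t : ℕ) : 2 ^ t + 1 ≤ TT t ∧ Lg (cc t) t t (Finset.Icc (2 ^ t + 1) (TT t)) :=
  (exists_large t t (2 ^ t + 1)).choose_spec.choose_spec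

/-- decoding of finite sets -/
noncomputable def dec (K : ℕ) : Finset ℕ := (Encodable.decode (α := Finset ℕ) K).getD ∅

@[simp] theorem dec_encode (F : Finset ℕ) : dec (Encodable.encode F) = F := by simp [dec]

/-- pairing of the second order structure -/
def prn (a b : ℕ) : ℕ := (a + b) * (a + b) + a

theorem prn_inj {a b c d : ℕ} (h : prn a b = prn c d) : a = c ∧ b = d := by
  unfold prn at h
  have h1 : a + b = c + d := by
    rcases lt_trichotomy (a + b) (c + d) with hlt | heq | hgt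
    · exfalso; nlinarith
    · exact heq
    · exfalso; nlinarith
  rw [h1] at h
  constructor <;> omega

open Classical in
/-- the pair function coded by a finite set of triples -/
noncomputable def gOf (d x y : ℕ) : ℕ :=
  if h : ∃ z, prn (prn x y) z ∈ dec d then Nat.find h else x

/-- states: a finite set, the number of undecided bits, a lower bound -/
abbrev St := Finset ℕ × ℕ × ℕ

open Classical in
noncomputable def stepColor (t n : ℕ) (s : St) (d : ℕ) : St :=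
  if h : ∃ D ⊆ s.1, blk (cc t) (s.2.1 - 1) (Lg (cc t) (s.2.1 - 1)) n (!(d.testBit (s.2.1 - 1))) D
  then (h.choose, s.2.1 - 1, s.2.2) else s

open Classical in
noncomputable def stepFree (t n : ℕ) (s : St) (d : ℕ) : St :=
  if h : ∃ D ⊆ s.1, Lg (cc t) s.2.1 n D ∧ FreeP (gOf d) (D : Set ℕ)
  then (h.choose, s.2.1, s.2.2) else s

open Classical in
noncomputable def stepGap (t n : ℕ) (s : St) (d : ℕ) : St :=
  if h : ∃ D ⊆ s.1, Lg (cc t) s.2.1 n D ∧ ∀ h ∈ dec d, (∀ y ∈ D, h < y) ∨ (∀ y ∈ D, y < h)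
  then (h.choose, s.2.1, s.2.2) else s

open Classical in
noncomputable def stepAdv (t n : ℕ) (s : St) (_ : ℕ) : St :=
  if h : ∃ p : ℕ × Finset ℕ, p.1 ∈ s.1 ∧ p.2 ⊆ s.1 ∧ Lg (cc t) s.2.1 n p.2 ∧
    ∀ y ∈ p.2, FF p.1 ≤ y
  then (h.choose.2, s.2.1, FF h.choose.1) else s

/-- the invariant -/
def Inv (t n : ℕ) (s : St) : Prop :=
  Lg (cc t) s.2.1 n s.1 ∧ n ≤ s.2.1 ∧ (∀ y ∈ s.1, s.2.2 ≤ y) ∧ 1 ≤ s.2.2

theorem stepColor_spec {t n : ℕ} {s : St} (h : Inv t (n + 1) s) (d : ℕ) :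
    Inv t n (stepColor t n s d) ∧ (stepColor t n s d).1 ⊆ s.1 ∧ (stepColor t n s d).2.2 = s.2.2 ∧
      ∀ x, (∃ a ∈ (stepColor t n s d).1, a ≤ x) → (∃ b ∈ (stepColor t n s d).1, x ≤ b) →
        cc t x (s.2.1 - 1) = !(d.testBit (s.2.1 - 1)) := by
  classical
  obtain ⟨Y, r, u⟩ := s
  obtain ⟨h1, h2, h3, h4⟩ := h
  simp only at h1 h2 h3 h4
  obtain ⟨r', rfl⟩ : ∃ r', r = r' + 1 := ⟨r - 1, by omega⟩
  have hex : ∃ D ⊆ Y, blk (cc t) r' (Lg (cc t) r') n (!(d.testBit r')) D := h1.2.1 _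
  have e : stepColor t n (Y, r' + 1, u) d = (hex.choose, r', u) := by
    unfold stepColor
    exact dif_pos hex
  obtain ⟨hD, hne, hcol, hL⟩ := hex.choose_spec
  rw [e]
  refine ⟨⟨hL, by simp only; omega, fun y hy => h3 y (hD hy), h4⟩, hD, rfl, ?_⟩
  intro x hx1 hx2
  exact hcol x hx1 hx2

theorem stepColor_r (t n : ℕ) (s : St) (d : ℕ) : (stepColor t n s d).2.1 ≤ s.2.1 := by
  classical
  unfold stepColor
  split
  · exact Nat.sub_le _ _
  · exact le_rfl

theorem stepFree_r (t n : ℕ) (s : St) (d : ℕ) : (stepFree t n s d).2.1 ≤ s.2.1 := by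
  classical
  unfold stepFree
  split <;> exact le_rfl

theorem stepGap_r (t n : ℕ) (s : St) (d : ℕ) : (stepGap t n s d).2.1 ≤ s.2.1 := by
  classical
  unfold stepGap
  split <;> exact le_rfl

theorem stepAdv_r (t n : ℕ) (s : St) (d : ℕ) : (stepAdv t n s d).2.1 ≤ s.2.1 := by
  classical
  unfold stepAdv
  split <;> exact le_rfl

theorem stepFree_spec {t n : ℕ} {s : St} (h : Inv t (n + 1) s) (d : ℕ) :
    Inv t n (stepFree t n s d) ∧ (stepFree t n s d).1 ⊆ s.1 ∧ (stepFree t n s d).2.2 = s.2.2 ∧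
      FreeP (gOf d) ((stepFree t n s d).1 : Set ℕ) := by
  classical
  obtain ⟨Y, r, u⟩ := s
  obtain ⟨h1, h2, h3, h4⟩ := h
  simp only at h1 h2 h3 h4
  obtain ⟨r', rfl⟩ : ∃ r', r = r' + 1 := ⟨r - 1, by omega⟩
  have hex : ∃ D ⊆ Y, Lg (cc t) (r' + 1) n D ∧ FreeP (gOf d) (D : Set ℕ) := by
    obtain ⟨D, hD, hL, hf⟩ := h1.2.2.1 1 (fun _ => gOf d) (fun _ => id)
      (fun y hy => h4.trans (h3 y hy))
    exact ⟨D, hD, hL, (hf 0 (by omega)).1⟩
  have e : stepFree t n (Y, r' + 1, u) d = (hex.choose, r' + 1, u) := by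
    unfold stepFree
    exact dif_pos hex
  obtain ⟨hD, hL, hf⟩ := hex.choose_spec
  rw [e]
  exact ⟨⟨hL, by simp only; omega, fun y hy => h3 y (hD hy), h4⟩, hD, rfl, hf⟩

theorem stepGap_spec {t n : ℕ} {s : St} (h : Inv t (n + 1) s) (d : ℕ) :
    Inv t n (stepGap t n s d) ∧ (stepGap t n s d).1 ⊆ s.1 ∧ (stepGap t n s d).2.2 = s.2.2 ∧
      ((dec d).card ≤ s.2.2 → ∀ h ∈ dec d, (∀ y ∈ (stepGap t n s d).1, h < y) ∨
        (∀ y ∈ (stepGap t n s d).1, y < h)) := by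
  classical
  obtain ⟨Y, r, u⟩ := s
  obtain ⟨h1, h2, h3, h4⟩ := h
  simp only at h1 h2 h3 h4
  obtain ⟨r', rfl⟩ : ∃ r', r = r' + 1 := ⟨r - 1, by omega⟩
  by_cases hex : ∃ D ⊆ Y, Lg (cc t) (r' + 1) n D ∧
      ∀ h ∈ dec d, (∀ y ∈ D, h < y) ∨ (∀ y ∈ D, y < h)
  · have e : stepGap t n (Y, r' + 1, u) d = (hex.choose, r' + 1, u) := by
      unfold stepGap
      exact dif_pos hex
    obtain ⟨hD, hL, hf⟩ := hex.choose_spec
    rw [e]
    exact ⟨⟨hL, by simp only; omega, fun y hy => h3 y (hD hy), h4⟩, hD, rfl, fun _ => hf⟩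
  · have e : stepGap t n (Y, r' + 1, u) d = (Y, r' + 1, u) := by
      unfold stepGap
      exact dif_neg hex
    rw [e]
    refine ⟨⟨Lg_anti _ _ _ _ h1, by simp only; omega, h3, h4⟩, subset_rfl, rfl, ?_⟩
    intro hc
    exfalso
    apply hex
    exact h1.2.2.2.1 (dec d) (fun y hy => hc.trans (h3 y hy))

theorem FF_mono {a b : ℕ} (h : a ≤ b) : FF a ≤ FF b := by
  unfold FF
  nlinarith

theorem lt_FF (a : ℕ) : a < FF a := by
  unfold FF
  nlinarith [Nat.zero_le (a ^ 2)]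

theorem stepAdv_spec {t n : ℕ} {s : St} (h : Inv t (n + 1) s) (d : ℕ) :
    Inv t n (stepAdv t n s d) ∧ (stepAdv t n s d).1 ⊆ s.1 ∧
      FF s.2.2 ≤ (stepAdv t n s d).2.2 ∧ ∃ x ∈ s.1, x < (stepAdv t n s d).2.2 := by
  classical
  obtain ⟨Y, r, u⟩ := s
  obtain ⟨h1, h2, h3, h4⟩ := h
  simp only at h1 h2 h3 h4
  obtain ⟨r', rfl⟩ : ∃ r', r = r' + 1 := ⟨r - 1, by omega⟩
  have hex : ∃ p : ℕ × Finset ℕ, p.1 ∈ Y ∧ p.2 ⊆ Y ∧ Lg (cc t) (r' + 1) n p.2 ∧
      ∀ y ∈ p.2, FF p.1 ≤ y := by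
    obtain ⟨x, hx, Y', h5, h6, h7⟩ := h1.2.2.2.2.1
    exact ⟨(x, Y'), hx, h5, h6, h7⟩
  have e : stepAdv t n (Y, r' + 1, u) d = (hex.choose.2, r' + 1, FF hex.choose.1) := by
    unfold stepAdv
    exact dif_pos hex
  obtain ⟨hx, hD, hL, hf⟩ := hex.choose_spec
  rw [e]
  refine ⟨⟨hL, by simp only; omega, hf, ?_⟩, hD, FF_mono (h3 _ hx), _, hx, lt_FF _⟩
  unfold FF
  simp only
  omega

/-! ### operations on numbers -/

/-- coding of states -/
noncomputable def encS (s : St) : ℕ := Nat.pair (Encodable.encode s.1) (Nat.pair s.2.1 s.2.2)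

/-- decoding of states -/
noncomputable def decS (w : ℕ) : St := (dec w.unpair.1, w.unpair.2.unpair.1, w.unpair.2.unpair.2)

@[simp] theorem decS_encS (s : St) : decS (encS s) = s := by
  simp [decS, encS]

/-- the combined step -/
noncomputable def stepK (k t n : ℕ) (s : St) (d : ℕ) : St :=
  match k with
  | 0 => stepColor t n s d
  | 1 => stepFree t n s d
  | 2 => stepGap t n s d
  | _ => stepAdv t n s d

/-- colour of a point as a number below `2 ^ t` -/
noncomputable def colN (t x : ℕ) : ℕ := Nat.ofBits (fun k : Fin t => cc t x k)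

open Classical in
/-- basic operations -/
noncomputable def opf : ℕ → ℕ → ℕ
  | 0, w => w.unpair.1 + w.unpair.2
  | 1, w => w.unpair.1 * w.unpair.2
  | 2, w => if w.unpair.1 = w.unpair.2 then 1 else 0
  | 3, w => if w.unpair.1 < w.unpair.2 then 1 else 0
  | 4, w => if w.unpair.1 ∈ dec w.unpair.2 then 1 else 0
  | 5, w => if w = 0 then 1 else 0
  | 6, w => if w.unpair.1 ≠ 0 ∧ w.unpair.2 ≠ 0 then 1 else 0
  | 7, w => w.unpair.1
  | 8, w => w.unpair.2
  | 9, t => encS (Finset.Icc (2 ^ t + 1) (TT t), t, 2 ^ t + 1)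
  | 10, w => w.unpair.1 - w.unpair.2
  | 11, t => TT t + 1
  | 12, w => colN w.unpair.1 w.unpair.2
  | 13, w => 2 ^ w
  | (k + 14), w => encS (stepK k w.unpair.1 w.unpair.2.unpair.1
      (decS w.unpair.2.unpair.2.unpair.1) w.unpair.2.unpair.2.unpair.2)

/-! ### codes -/

/-- codes of internal functions; `var` is the variable `0`, `lift` is weakening, `clo` closes a
code, `setc` forms finite sets and `bmin` is bounded search -/
inductive Cd : Type
  | idx : Cd
  | var : Cd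
  | lift : Cd → Cd
  | clo : Cd → Cd
  | nat : ℕ → Cd
  | op : ℕ → Cd → Cd
  | pair : Cd → Cd → Cd
  | setc : Cd → Cd → Cd
  | bmin : Cd → Cd → Cd

deriving instance Countable for Cd

def consN (a : ℕ) (v : ℕ → ℕ) : ℕ → ℕ
  | 0 => a
  | n + 1 => v n

open Classical in
/-- evaluation of a code at index `t` under an assignment -/
noncomputable def ev : Cd → ℕ → (ℕ → ℕ) → ℕ
  | .idx, t, _ => t
  | .var, _, v => v 0
  | .lift c, t, v => ev c t (fun i => v (i + 1))
  | .clo c, t, _ => ev c t (fun _ => 0)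
  | .nat n, _, _ => n
  | .op i c, t, v => opf i (ev c t v)
  | .pair c d, t, v => Nat.pair (ev c t v) (ev d t v)
  | .setc b c, t, v => Encodable.encode
      ((Finset.range (ev b t v)).filter (fun x => ev c t (consN x v) ≠ 0))
  | .bmin b c, t, v => if h : ∃ x < ev b t v, ev c t (consN x v) ≠ 0 then Nat.find h else ev b t v

/-- value of a closed code -/
noncomputable def E (c : Cd) (t : ℕ) : ℕ := ev c t (fun _ => 0)

end Pool.Agent.Helper617.FS
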