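import Pool.Agent.Helper617.FS.Mod1

/-!
The sequence of internal sets and the cut.
-/

namespace Pool.Agent.Helper617.FS

open Filter

/-- eventually along the ultrafilter -/
def Ev (p : ℕ → Prop) : Prop := ∀ᶠ t in (UU : Filter ℕ), p t

theorem Ev.mono {p q : ℕ → Prop} (h : Ev p) (hq : ∀ n, p n → q n) : Ev q :=
  Filter.Eventually.mono h hq

theorem Ev.and {p q : ℕ → Prop} (h : Ev p) (hq : Ev q) : Ev fun n => p n ∧ q n :=
  Filter.Eventually.and h hq

theorem Ev.mono2 {p q r : ℕ → Prop} (h : Ev p) (hq : Ev q) (hr : ∀ n, p n → q n → r n) : Ev r :=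
  (h.and hq).mono fun n hn => hr n hn.1 hn.2

theorem Ev.mono3 {p q r s : ℕ → Prop} (h : Ev p) (hq : Ev q) (hr : Ev r)
    (hs : ∀ n, p n → q n → r n → s n) : Ev s :=
  (h.and (hq.and hr)).mono fun n hn => hs n hn.1 hn.2.1 hn.2.2

theorem Ev.of {p : ℕ → Prop} (h : ∀ n, p n) : Ev p := Filter.Eventually.of_forall h

theorem Ev.not {p : ℕ → Prop} : (Ev fun n => ¬ p n) ↔ ¬ Ev p := Ultrafilter.eventually_not

theorem Ev.and_iff {p q : ℕ → Prop} : (Ev fun n => p n ∧ q n) ↔ Ev p ∧ Ev q :=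
  Filter.eventually_and

theorem Ev.or_iff {p q : ℕ → Prop} : (Ev fun n => p n ∨ q n) ↔ Ev p ∨ Ev q :=
  Ultrafilter.eventually_or

theorem Ev.congr {p q : ℕ → Prop} (h : Ev fun n => p n ↔ q n) : Ev p ↔ Ev q :=
  Filter.eventually_congr h

theorem Ev.ge (k : ℕ) : Ev fun n => k ≤ n := ev_ge k

theorem Ev.exists {p : ℕ → Prop} (h : Ev p) : ∃ n, p n := Filter.Eventually.exists h

theorem Ev.false (h : Ev fun _ => False) : False := by
  obtain ⟨_, h⟩ := h.exists
  exact h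

/-! ### combinators for codes -/

def cAdd (a b : Cd) : Cd := .op 0 (.pair a b)
def cMul (a b : Cd) : Cd := .op 1 (.pair a b)
def cEq (a b : Cd) : Cd := .op 2 (.pair a b)
def cLt (a b : Cd) : Cd := .op 3 (.pair a b)
def cMem (a b : Cd) : Cd := .op 4 (.pair a b)
def cNot (a : Cd) : Cd := .op 5 a
def cAnd (a b : Cd) : Cd := .op 6 (.pair a b)
def cEx (b c : Cd) : Cd := cLt (.bmin b c) b
def cAll (b c : Cd) : Cd := cNot (cEx b (cNot c))
def cPr (a b : Cd) : Cd := cAdd (cMul (cAdd a b) (cAdd a b)) a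

section ev
variable (a b : Cd) (t : ℕ) (v : ℕ → ℕ)
@[simp] theorem ev_idx : ev .idx t v = t := rfl
@[simp] theorem ev_var : ev .var t v = v 0 := rfl
@[simp] theorem ev_lift : ev (.lift a) t v = ev a t (fun i => v (i + 1)) := rfl
@[simp] theorem ev_clo : ev (.clo a) t v = E a t := rfl
@[simp] theorem ev_nat (n : ℕ) : ev (.nat n) t v = n := rfl
@[simp] theorem ev_pair : ev (.pair a b) t v = Nat.pair (ev a t v) (ev b t v) := rfl
@[simp] theorem ev_cAdd : ev (cAdd a b) t v = ev a t v + ev b t v := by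
  simp [cAdd, ev, opf]
@[simp] theorem ev_cMul : ev (cMul a b) t v = ev a t v * ev b t v := by
  simp [cMul, ev, opf]
@[simp] theorem ev_cPr : ev (cPr a b) t v = prn (ev a t v) (ev b t v) := by
  simp [cPr, prn]
@[simp] theorem tr_cEq : ev (cEq a b) t v ≠ 0 ↔ ev a t v = ev b t v := by
  simp [cEq, ev, opf]
@[simp] theorem tr_cLt : ev (cLt a b) t v ≠ 0 ↔ ev a t v < ev b t v := by
  simp [cLt, ev, opf]
@[simp] theorem tr_cMem : ev (cMem a b) t v ≠ 0 ↔ ev a t v ∈ dec (ev b t v) := by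
  simp [cMem, ev, opf]
@[simp] theorem tr_cNot : ev (cNot a) t v ≠ 0 ↔ ¬ (ev a t v ≠ 0) := by
  simp [cNot, ev, opf]
@[simp] theorem tr_cAnd : ev (cAnd a b) t v ≠ 0 ↔ (ev a t v ≠ 0 ∧ ev b t v ≠ 0) := by
  simp [cAnd, ev, opf]
theorem ev_bmin_pos (h : ∃ x < ev b t v, ev a t (consN x v) ≠ 0) :
    ev (.bmin b a) t v < ev b t v ∧ ev a t (consN (ev (.bmin b a) t v) v) ≠ 0 ∧
      ∀ y < ev (.bmin b a) t v, ¬ ev a t (consN y v) ≠ 0 := by
  classical
  have e : ev (.bmin b a) t v = Nat.find h := by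
    rw [ev]
    exact dif_pos h
  rw [e]
  refine ⟨(Nat.find_spec h).1, (Nat.find_spec h).2, ?_⟩
  intro y hy hc
  exact Nat.find_min h hy ⟨hy.trans (Nat.find_spec h).1, hc⟩
theorem ev_bmin_neg (h : ¬ ∃ x < ev b t v, ev a t (consN x v) ≠ 0) :
    ev (.bmin b a) t v = ev b t v := by
  classical
  rw [ev]
  exact dif_neg h
@[simp] theorem tr_cEx : ev (cEx b a) t v ≠ 0 ↔ ∃ x < ev b t v, ev a t (consN x v) ≠ 0 := by
  unfold cEx
  rw [tr_cLt]
  by_cases h : ∃ x < ev b t v, ev a t (consN x v) ≠ 0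
  · exact iff_of_true (ev_bmin_pos a b t v h).1 h
  · rw [ev_bmin_neg a b t v h]
    exact iff_of_false (lt_irrefl _) h
@[simp] theorem tr_cAll : ev (cAll b a) t v ≠ 0 ↔ ∀ x < ev b t v, ev a t (consN x v) ≠ 0 := by
  unfold cAll
  rw [tr_cNot, tr_cEx]
  push Not
  constructor
  · intro h x hx hc
    have := h x hx
    simp [cNot, ev, opf] at this
    exact this hc
  · intro h x hx
    have := h x hx
    simp [cNot, ev, opf]
    exact this
theorem mem_setc (x : ℕ) : x ∈ dec (ev (.setc b a) t v) ↔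
    x < ev b t v ∧ ev a t (consN x v) ≠ 0 := by
  classical
  rw [ev, dec_encode, Finset.mem_filter, Finset.mem_range]
end ev

@[simp] theorem consN_zero (a : ℕ) (v : ℕ → ℕ) : consN a v 0 = a := rfl
@[simp] theorem consN_succ (a : ℕ) (v : ℕ → ℕ) (n : ℕ) : consN a v (n + 1) = v n := rfl

/-! ### requirements and the sequence -/

instance : Nonempty (ℕ × Cd) := ⟨(0, .idx)⟩

noncomputable def reqf : ℕ → ℕ × Cd := Classical.choose (exists_surjective_nat (ℕ × Cd))

theorem reqf_surj : Function.Surjective reqf := Classical.choose_spec (exists_surjective_nat _)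

noncomputable def req (k : ℕ) : ℕ × Cd := reqf k.unpair.1

theorem req_inf (p : ℕ × Cd) (m : ℕ) : ∃ k ≥ m, req k = p := by
  obtain ⟨j, hj⟩ := reqf_surj p
  exact ⟨Nat.pair j m, Nat.right_le_pair _ _, by simp [req, hj]⟩

/-- codes of the states -/
noncomputable def SC : ℕ → Cd
  | 0 => .op 9 .idx
  | k + 1 => .op ((req k).1 + 14) (.pair .idx (.pair (.op 10 (.pair .idx (.nat (k + 1))))
      (.pair (SC k) (.clo (req k).2))))

/-- the states -/
noncomputable def st (k t : ℕ) : St := decS (E (SC k) t)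

theorem st_zero (t : ℕ) : st 0 t = (Finset.Icc (2 ^ t + 1) (TT t), t, 2 ^ t + 1) := by
  simp [st, SC, E, ev, opf]

theorem st_succ (k t : ℕ) :
    st (k + 1) t = stepK (req k).1 t (t - (k + 1)) (st k t) (E (req k).2 t) := by
  simp [st, SC, E, ev, opf]

theorem stepK_spec {k t n : ℕ} {s : St} (h : Inv t (n + 1) s) (d : ℕ) :
    Inv t n (stepK k t n s d) ∧ (stepK k t n s d).1 ⊆ s.1 ∧ s.2.2 ≤ (stepK k t n s d).2.2 := by
  match k with
  | 0 =>
    obtain ⟨h1, h2, h3, _⟩ := stepColor_spec h d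
    exact ⟨h1, h2, h3.ge⟩
  | 1 =>
    obtain ⟨h1, h2, h3, _⟩ := stepFree_spec h d
    exact ⟨h1, h2, h3.ge⟩
  | 2 =>
    obtain ⟨h1, h2, h3, _⟩ := stepGap_spec h d
    exact ⟨h1, h2, h3.ge⟩
  | (k + 3) =>
    obtain ⟨h1, h2, h3, _⟩ := stepAdv_spec h d
    exact ⟨h1, h2, (lt_FF _).le.trans h3⟩

theorem inv_st : ∀ k t : ℕ, k ≤ t → Inv t (t - k) (st k t)
  | 0, t, _ => by
    rw [st_zero]
    refine ⟨(TT_spec t).2, le_rfl, ?_, by simp⟩
    intro y hy
    exact (Finset.mem_Icc.mp hy).1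
  | k + 1, t, h => by
    have ih := inv_st k t (by omega)
    have e : t - k = (t - (k + 1)) + 1 := by omega
    rw [e] at ih
    rw [st_succ]
    exact (stepK_spec ih _).1

theorem inv_st' {k t : ℕ} (h : k + 1 ≤ t) : Inv t ((t - (k + 1)) + 1) (st k t) := by
  have := inv_st k t (by omega)
  rwa [show t - k = (t - (k + 1)) + 1 by omega] at this

theorem st_step {k t : ℕ} (h : k + 1 ≤ t) :
    (st (k + 1) t).1 ⊆ (st k t).1 ∧ (st k t).2.2 ≤ (st (k + 1) t).2.2 := by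
  rw [st_succ]
  exact (stepK_spec (inv_st' h) _).2

theorem st_le {i j t : ℕ} (hij : i ≤ j) (h : j ≤ t) :
    (st j t).1 ⊆ (st i t).1 ∧ (st i t).2.2 ≤ (st j t).2.2 := by
  induction j, hij using Nat.le_induction with
  | base => exact ⟨subset_rfl, le_rfl⟩
  | succ k _ ih =>
    have h1 := ih (by omega)
    have h2 := st_step h
    exact ⟨h2.1.trans h1.1, h1.2.trans h2.2⟩

theorem st_ne {k t : ℕ} (h : k ≤ t) : (st k t).1.Nonempty := Lg_ne _ _ _ _ (inv_st k t h).1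

theorem st_lb {k t : ℕ} (h : k ≤ t) : ∀ y ∈ (st k t).1, (st k t).2.2 ≤ y := (inv_st k t h).2.2.1

/-- advance steps are cofinal -/
theorem adv (m : ℕ) : ∃ k ≥ m, ∀ t, k + 1 ≤ t → FF (st k t).2.2 ≤ (st (k + 1) t).2.2 ∧
    ∃ x ∈ (st k t).1, x < (st (k + 1) t).2.2 := by
  obtain ⟨k, hk, hreq⟩ := req_inf (3, .idx) m
  refine ⟨k, hk, fun t ht => ?_⟩
  rw [st_succ, hreq]
  have := stepAdv_spec (inv_st' ht) (E Cd.idx t)
  exact ⟨this.2.2.1, this.2.2.2⟩

theorem st_top {k t y : ℕ} (h : k ≤ t) (hy : y ∈ (st k t).1) : y ≤ TT t := by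
  have h1 := (st_le (Nat.zero_le k) h).1 hy
  rw [st_zero] at h1
  exact (Finset.mem_Icc.mp h1).2

/-! ### the number domain -/

/-- bounded codes -/
def Bdd (c : Cd) : Prop := ∃ k, Ev fun t => E c t < (st k t).2.2

theorem Bdd.of_le {c d : Cd} (hd : Bdd d) (h : Ev fun t => E c t ≤ E d t) : Bdd c := by
  obtain ⟨k, hk⟩ := hd
  exact ⟨k, h.mono2 hk fun t h1 h2 => lt_of_le_of_lt h1 h2⟩

theorem u_mono {i j : ℕ} (h : i ≤ j) : Ev fun t => (st i t).2.2 ≤ (st j t).2.2 :=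
  (Ev.ge j).mono fun _ ht => (st_le h ht).2

theorem bdd_le {f : ℕ → ℕ} {i j : ℕ} (h : i ≤ j) (hf : Ev fun t => f t < (st i t).2.2) :
    Ev fun t => f t < (st j t).2.2 := hf.mono2 (u_mono h) fun _ h1 h2 => lt_of_lt_of_le h1 h2

theorem bdd_nat (n : ℕ) : Bdd (.nat n) := by
  refine ⟨0, (Ev.ge n).mono fun t ht => ?_⟩
  rw [st_zero]
  have := Nat.lt_two_pow_self (n := t)
  simp only [E, ev_nat]
  omega

theorem bdd_op2 (F : ℕ → ℕ → ℕ) (hF : ∀ u a b, a < u → b < u → F a b < FF u) {c d e : Cd}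
    (hc : Bdd c) (hd : Bdd d) (he : Ev fun t => E e t = F (E c t) (E d t)) : Bdd e := by
  obtain ⟨k, hk⟩ := hc
  obtain ⟨l, hl⟩ := hd
  obtain ⟨j, hj, hadv⟩ := adv (max k l)
  refine ⟨j + 1, ?_⟩
  have h1 := bdd_le ((le_max_left k l).trans hj) hk
  have h2 := bdd_le ((le_max_right k l).trans hj) hl
  refine (h1.and h2).mono3 he (Ev.ge (j + 1)) ?_
  intro t h3 h4 h5
  rw [h4]
  exact lt_of_lt_of_le (hF _ _ _ h3.1 h3.2) (hadv t h5).1

theorem bdd_add {a b : Cd} (ha : Bdd a) (hb : Bdd b) : Bdd (cAdd a b) :=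
  bdd_op2 (· + ·) (fun u a b h1 h2 => by unfold FF; nlinarith) ha hb
    (Ev.of fun t => by simp [E])

theorem bdd_mul {a b : Cd} (ha : Bdd a) (hb : Bdd b) : Bdd (cMul a b) :=
  bdd_op2 (· * ·) (fun u a b h1 h2 => by unfold FF; nlinarith [Nat.mul_le_mul h1.le h2.le]) ha hb
    (Ev.of fun t => by simp [E])

instance ciSetoid : Setoid {c : Cd // Bdd c} where
  r a b := Ev fun t => E a.1 t = E b.1 t
  iseqv := ⟨fun _ => Ev.of fun _ => rfl, fun h => h.mono fun _ h => h.symm,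
    fun h1 h2 => h1.mono2 h2 fun _ h1 h2 => h1.trans h2⟩

/-- the numbers of the model -/
def MM : Type := Quotient ciSetoid

noncomputable def rep (x : MM) : Cd := (Quotient.out x).1

/-- the value of a representative at `t` -/
noncomputable def rv (x : MM) (t : ℕ) : ℕ := E (rep x) t

theorem rep_bdd (x : MM) : Bdd (rep x) := (Quotient.out x).2

def mk (c : Cd) (h : Bdd c) : MM := Quotient.mk _ ⟨c, h⟩

theorem rv_mk (c : Cd) (h : Bdd c) : Ev fun t => rv (mk c h) t = E c t := by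
  have := Quotient.exact (Quotient.out_eq (mk c h) : Quotient.mk _ (Quotient.out (mk c h)) = _)
  exact this

theorem mm_ext {x y : MM} : x = y ↔ Ev fun t => rv x t = rv y t := by
  constructor
  · rintro rfl; exact Ev.of fun _ => rfl
  · intro h
    rw [← Quotient.out_eq x, ← Quotient.out_eq y]
    exact Quotient.sound h

end Pool.Agent.Helper617.FS
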