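import Pool.Agent.Helper617.FS.Mod2
import Pool.Agent.Helper617.RM.Defs

/-!
The structure and the transfer theorem for bounded formulas.
-/

namespace Pool.Agent.Helper617.FS

open Filter Pool.Agent.Helper617.RM

/-- the structure -/
noncomputable def PP : L2Structure.{0} where
  M := MM
  zero := mk (.nat 0) (bdd_nat 0)
  one := mk (.nat 1) (bdd_nat 1)
  add x y := mk (cAdd (rep x) (rep y)) (bdd_add (rep_bdd x) (rep_bdd y))
  mul x y := mk (cMul (rep x) (rep y)) (bdd_mul (rep_bdd x) (rep_bdd y))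
  lt x y := Ev fun t => rv x t < rv y t
  Sets := {A | ∃ K : Cd, ∀ x, x ∈ A ↔ Ev fun t => rv x t ∈ dec (E K t)}

/-- the value of a representative at `t` -/
noncomputable def rp (x : PP.M) (t : ℕ) : ℕ := rv x t

noncomputable def rc (x : PP.M) : Cd := rep x

theorem E_rc (x : PP.M) (t : ℕ) : E (rc x) t = rp x t := rfl

theorem rc_bdd (x : PP.M) : Bdd (rc x) := rep_bdd x

def mkp (c : Cd) (h : Bdd c) : PP.M := mk c h

theorem rp_mkp (c : Cd) (h : Bdd c) : Ev fun t => rp (mkp c h) t = E c t := rv_mk c h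

theorem rv_zero : Ev fun t => rp PP.zero t = 0 := rv_mk _ _
theorem rv_one : Ev fun t => rp PP.one t = 1 := rv_mk _ _
theorem rv_add (x y : PP.M) : Ev fun t => rp (PP.add x y) t = rp x t + rp y t :=
  (rv_mk _ _).mono fun t h => by
    show rv (mk _ _) t = _
    rw [h]; simp [E, rv, rp]
theorem rv_mul (x y : PP.M) : Ev fun t => rp (PP.mul x y) t = rp x t * rp y t :=
  (rv_mk _ _).mono fun t h => by
    show rv (mk _ _) t = _
    rw [h]; simp [E, rv, rp]

theorem pp_ext {x y : PP.M} : x = y ↔ Ev fun t => rp x t = rp y t := mm_ext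

theorem pp_lt (x y : PP.M) : PP.lt x y ↔ Ev fun t => rp x t < rp y t := Iff.rfl

/-- a code of a set -/
noncomputable def KK (X : PP.Sets) : Cd := Classical.choose X.2

theorem mem_KK (X : PP.Sets) (x : PP.M) : x ∈ (X : Set PP.M) ↔ Ev fun t => rp x t ∈ dec (E (KK X) t) :=
  Classical.choose_spec X.2 x

/-- values of terms at `t` -/
noncomputable def tval : Term PP → ℕ → (ℕ → ℕ) → ℕ
  | .var i, _, w => w i
  | .const a, t, _ => rp a t
  | .zero, _, _ => 0
  | .one, _, _ => 1
  | .add a b, t, w => tval a t w + tval b t w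
  | .mul a b, t, w => tval a t w * tval b t w

/-- truth at `t` -/
def tru : Delta0 PP → ℕ → (ℕ → ℕ) → Prop
  | .eq a b, t, w => tval a t w = tval b t w
  | .lt a b, t, w => tval a t w < tval b t w
  | .mem a X, t, w => tval a t w ∈ dec (E (KK X) t)
  | .neg φ, t, w => ¬ tru φ t w
  | .and φ ψ, t, w => tru φ t w ∧ tru ψ t w
  | .ball a φ, t, w => ∀ x < tval a t w, tru φ t (consN x w)

/-- extension of a code assignment under a binder -/
def consC (ρ : ℕ → Cd) : ℕ → Cd
  | 0 => .var
  | n + 1 => .lift (ρ n)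

noncomputable def trT : Term PP → (ℕ → Cd) → Cd
  | .var i, ρ => ρ i
  | .const a, _ => .clo (rc a)
  | .zero, _ => .nat 0
  | .one, _ => .nat 1
  | .add a b, ρ => cAdd (trT a ρ) (trT b ρ)
  | .mul a b, ρ => cMul (trT a ρ) (trT b ρ)

noncomputable def trF : Delta0 PP → (ℕ → Cd) → Cd
  | .eq a b, ρ => cEq (trT a ρ) (trT b ρ)
  | .lt a b, ρ => cLt (trT a ρ) (trT b ρ)
  | .mem a X, ρ => cMem (trT a ρ) (.clo (KK X))
  | .neg φ, ρ => cNot (trF φ ρ)
  | .and φ ψ, ρ => cAnd (trF φ ρ) (trF ψ ρ)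
  | .ball a φ, ρ => cAll (trT a ρ) (trF φ (consC ρ))

theorem ev_trT (s : Term PP) (ρ : ℕ → Cd) (t : ℕ) (w : ℕ → ℕ) :
    ev (trT s ρ) t w = tval s t (fun i => ev (ρ i) t w) := by
  induction s with
  | var i => rfl
  | const a => rfl
  | zero => rfl
  | one => rfl
  | add a b iha ihb => simp only [trT, tval, ev_cAdd, iha, ihb]
  | mul a b iha ihb => simp only [trT, tval, ev_cMul, iha, ihb]

theorem consC_ev (ρ : ℕ → Cd) (t x : ℕ) (w : ℕ → ℕ) :
    (fun i => ev (consC ρ i) t (consN x w)) = consN x (fun i => ev (ρ i) t w) := by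
  funext i
  cases i with
  | zero => rfl
  | succ n => simp [consC]

theorem tr_trF (φ : Delta0 PP) : ∀ (ρ : ℕ → Cd) (t : ℕ) (w : ℕ → ℕ),
    ev (trF φ ρ) t w ≠ 0 ↔ tru φ t (fun i => ev (ρ i) t w) := by
  induction φ with
  | eq a b => intro ρ t w; simp only [trF, tru, tr_cEq, ev_trT]
  | lt a b => intro ρ t w; simp only [trF, tru, tr_cLt, ev_trT]
  | mem a X => intro ρ t w; simp only [trF, tru, tr_cMem, ev_trT, ev_clo]
  | neg φ ih => intro ρ t w; simp only [trF, tru, tr_cNot, ih]
  | and φ ψ ih1 ih2 => intro ρ t w; simp only [trF, tru, tr_cAnd, ih1, ih2]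
  | ball a φ ih =>
    intro ρ t w
    simp only [trF, tru, tr_cAll, ih, ev_trT, consC_ev]

theorem rv_val (s : Term PP) (v : ℕ → PP.M) :
    Ev fun t => rp (s.val v) t = tval s t (fun i => rp (v i) t) := by
  induction s with
  | var i => exact Ev.of fun _ => rfl
  | const a => exact Ev.of fun _ => rfl
  | zero => exact rv_zero
  | one => exact rv_one
  | add a b iha ihb =>
    refine iha.mono3 ihb (rv_add (a.val v) (b.val v)) ?_
    intro t h1 h2 h3
    show rp (PP.add (a.val v) (b.val v)) t = _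
    rw [h3, h1, h2]; rfl
  | mul a b iha ihb =>
    refine iha.mono3 ihb (rv_mul (a.val v) (b.val v)) ?_
    intro t h1 h2 h3
    show rp (PP.mul (a.val v) (b.val v)) t = _
    rw [h3, h1, h2]; rfl

/-- witnesses below a bounded code -/
theorem wit (b c : Cd) (hb : Bdd b)
    (h : Ev fun t => ∃ x < E b t, ev c t (consN x (fun _ => 0)) ≠ 0) :
    ∃ a : PP.M, Ev fun t => rp a t < E b t ∧ ev c t (consN (rp a t) (fun _ => 0)) ≠ 0 ∧
      ∀ y < rp a t, ¬ ev c t (consN y (fun _ => 0)) ≠ 0 := by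
  have h1 : Ev fun t => E (.bmin b c) t < E b t ∧
      ev c t (consN (E (.bmin b c) t) (fun _ => 0)) ≠ 0 ∧
      ∀ y < E (.bmin b c) t, ¬ ev c t (consN y (fun _ => 0)) ≠ 0 :=
    h.mono fun t ht => ev_bmin_pos c b t (fun _ => 0) ht
  have hbd : Bdd (.bmin b c) := hb.of_le (h1.mono fun t ht => ht.1.le)
  refine ⟨mkp _ hbd, ?_⟩
  refine (rp_mkp _ hbd).mono2 h1 ?_
  intro t e h
  rw [e]; exact h

theorem cons_rv (a : PP.M) (v : ℕ → PP.M) (t : ℕ) :
    (fun i => rp (RM.cons a v i) t) = consN (rp a t) (fun i => rp (v i) t) := by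
  funext i
  cases i with
  | zero => rfl
  | succ n => rfl

/-- transfer for bounded formulas -/
theorem los (φ : Delta0 PP) : ∀ v : ℕ → PP.M,
    φ.Holds v ↔ Ev fun t => tru φ t (fun i => rp (v i) t) := by
  induction φ with
  | eq a b =>
    intro v
    show a.val v = b.val v ↔ _
    rw [pp_ext]
    refine Iff.intro (fun h => ?_) (fun h => ?_)
    · exact h.mono3 (rv_val a v) (rv_val b v) fun t h1 h2 h3 => by
        show tval a t _ = tval b t _
        rw [← h2, ← h3, h1]
    · exact h.mono3 (rv_val a v) (rv_val b v) fun t h1 h2 h3 => by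
        rw [h2, h3]; exact h1
  | lt a b =>
    intro v
    show (Ev fun t => rp (a.val v) t < rp (b.val v) t) ↔ _
    refine Iff.intro (fun h => ?_) (fun h => ?_)
    · exact h.mono3 (rv_val a v) (rv_val b v) fun t h1 h2 h3 => by
        show tval a t _ < tval b t _
        rw [← h2, ← h3]; exact h1
    · exact h.mono3 (rv_val a v) (rv_val b v) fun t h1 h2 h3 => by
        rw [h2, h3]; exact h1
  | mem a X =>
    intro v
    show a.val v ∈ (X : Set PP.M) ↔ _
    rw [mem_KK]
    refine Iff.intro (fun h => ?_) (fun h => ?_)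
    · exact h.mono2 (rv_val a v) fun t h1 h2 => by
        show tval a t _ ∈ _
        rw [← h2]; exact h1
    · exact h.mono2 (rv_val a v) fun t h1 h2 => by
        rw [h2]; exact h1
  | neg φ ih =>
    intro v
    show ¬ φ.Holds v ↔ Ev fun t => ¬ tru φ t _
    rw [ih v, Ev.not]
  | and φ ψ ih1 ih2 =>
    intro v
    show φ.Holds v ∧ ψ.Holds v ↔ Ev fun t => tru φ t _ ∧ tru ψ t _
    rw [ih1 v, ih2 v, Ev.and_iff]
  | ball s φ ih =>
    intro v
    show (∀ a, PP.lt a (s.val v) → φ.Holds (RM.cons a v)) ↔ Ev fun t => ∀ x < tval s t _, _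
    constructor
    · intro h
      by_contra hcon
      rw [← Ev.not] at hcon
      set ρ : ℕ → Cd := fun i => .clo (rc (v i)) with hρ
      have hρe : ∀ t w, (fun i => ev (ρ i) t w) = fun i => rp (v i) t := fun t w => rfl
      have hb : ∀ t, E (trT s ρ) t = tval s t (fun i => rp (v i) t) := fun t => ev_trT s ρ t _
      have hbd : Bdd (trT s ρ) := (rc_bdd (s.val v)).of_le
        ((rv_val s v).mono fun t ht => by rw [hb, ← ht]; exact le_rfl)
      obtain ⟨a, ha⟩ := wit (trT s ρ) (cNot (trF φ (consC ρ))) hbd (hcon.mono fun t ht => by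
        push Not at ht
        obtain ⟨x, hx, hx'⟩ := ht
        refine ⟨x, by rw [hb]; exact hx, ?_⟩
        rw [tr_cNot, tr_trF, consC_ev, hρe]
        exact hx')
      have h1 : PP.lt a (s.val v) := ha.mono2 (rv_val s v) fun t h1 h2 => by
        show rp a t < rp (s.val v) t
        rw [h2, ← hb]; exact h1.1
      have h2 := (ih (RM.cons a v)).mp (h a h1)
      refine (h2.mono2 ha fun t h3 h4 => ?_).false
      have h5 := h4.2.1
      rw [tr_cNot, tr_trF, consC_ev, hρe] at h5
      rw [cons_rv] at h3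
      exact h5 h3
    · intro h a ha
      rw [ih]
      refine h.mono3 ha (rv_val s v) fun t h1 h2 h3 => ?_
      rw [cons_rv]
      exact h1 _ (by rw [← h3]; exact h2)

end Pool.Agent.Helper617.FS
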