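import Pool.Agent.Helper617.FS.Mod4
import Pool.Agent.Helper617.FS.Defs

/-!
The free set principle holds and bounding fails in the structure.
-/

namespace Pool.Agent.Helper617.FS

open Filter Pool.Agent.Helper617.RM

theorem rp_pair (x y : PP.M) : Ev fun t => rp (PP.pair x y) t = prn (rp x t) (rp y t) := by
  unfold L2Structure.pair
  refine ((rv_add (PP.mul (PP.add x y) (PP.add x y)) x).and
    (rv_mul (PP.add x y) (PP.add x y))).mono2 (rv_add x y) fun t h1 h2 => ?_
  rw [h1.1, h1.2, h2]; rfl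

theorem pair_inj {x y x' y' : PP.M} (h : PP.pair x y = PP.pair x' y') : x = x' ∧ y = y' := by
  rw [pp_ext] at h
  have key : Ev fun t => rp x t = rp x' t ∧ rp y t = rp y' t :=
    h.mono3 (rp_pair x y) (rp_pair x' y') fun t h1 h2 h3 => by
      rw [h2, h3] at h1
      exact prn_inj h1
  exact ⟨pp_ext.mpr (key.mono fun _ h => h.1), pp_ext.mpr (key.mono fun _ h => h.2)⟩

/-- the internal sets of the stages are infinite in the structure -/
theorem stage_infinite (k : ℕ) (b : PP.M) : ∃ a : PP.M, ¬ PP.lt a b ∧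
    Ev fun t => rp a t ∈ (st k t).1 := by
  obtain ⟨m, hm⟩ := rc_bdd b
  obtain ⟨j, hj, hadv⟩ := adv (max m k)
  obtain ⟨a, ha⟩ := wit (uC (j + 1)) (cMem .var (.clo (yC j))) (bdd_uC _)
    ((Ev.ge (j + 1)).mono fun t ht => by
      obtain ⟨x, hx, hx'⟩ := (hadv t ht).2
      refine ⟨x, by rw [E_uC]; exact hx', ?_⟩
      rw [tr_cMem, ev_clo, E_yC]
      exact hx)
  have hmem : Ev fun t => rp a t ∈ (st j t).1 := ha.mono fun t ht => by
    have := ht.2.1
    rw [tr_cMem, ev_clo, E_yC] at this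
    exact this
  refine ⟨a, ?_, ?_⟩
  · intro hlt
    rw [pp_lt'] at hlt
    refine ((hlt.and hmem).mono3 (bdd_le ((le_max_left m k).trans hj) hm) (Ev.ge j) ?_).false
    intro t h1 h2 h3
    have h4 := st_lb h3 _ h1.2
    have h5 : rp b t < (st j t).2.2 := h2
    omega
  · exact hmem.mono2 (Ev.ge j) fun t h1 h2 => (st_le ((le_max_right m k).trans hj) h2).1 h1

/-- the free set principle -/
theorem freeSet : FreeSetPairs PP := by
  intro f hf
  obtain ⟨K, hK⟩ := hf
  obtain ⟨k, _, hreq⟩ := req_inf (1, K) 0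
  have hfree : ∀ t, k + 1 ≤ t → FreeP (gOf (E K t)) ((st (k + 1) t).1 : Set ℕ) := by
    intro t ht
    rw [st_succ, hreq]
    exact (stepFree_spec (inv_st' ht) (E K t)).2.2.2
  refine ⟨{x | Ev fun t => rp x t ∈ (st (k + 1) t).1}, ⟨yC (k + 1), fun x => ?_⟩, ?_, ?_⟩
  · refine Ev.congr (Ev.of fun t => ?_)
    rw [E_yC]
    exact Iff.rfl
  · rintro ⟨b, hb⟩
    obtain ⟨a, ha1, ha2⟩ := stage_infinite (k + 1) b
    exact ha1 (hb a ha2)
  · intro x hx y hy hxy hz
    set z := f x y with hzdef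
    -- the triple is in the internal set
    have h1 : Ev fun t => prn (prn (rp x t) (rp y t)) (rp z t) ∈ dec (E K t) := by
      have h2 : PP.pair (PP.pair x y) z ∈
          {p | ∃ x y, PP.lt x y ∧ p = PP.pair (PP.pair x y) (f x y)} := ⟨x, y, hxy, rfl⟩
      have h2' := (hK _).mp h2
      refine Ev.mono3 h2' (rp_pair (PP.pair x y) z) (rp_pair x y) fun t h3 h4 h5 => ?_
      rw [← h5, ← h4]
      exact h3
    -- the least value
    let c : Cd := cMem (cPr (cPr (.clo (rc x)) (.clo (rc y))) .var) (.clo K)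
    have hc : ∀ t n, ev c t (consN n (fun _ => 0)) ≠ 0 ↔
        prn (prn (rp x t) (rp y t)) n ∈ dec (E K t) := by
      intro t n
      simp only [c, tr_cMem, ev_cPr, ev_clo, ev_var, consN_zero, E_rc]
    obtain ⟨a, ha⟩ := wit (cAdd (rc z) (.nat 1)) c (bdd_add (rc_bdd z) (bdd_nat 1))
      (h1.mono fun t ht => ⟨rp z t, by
        show rp z t < ev _ _ _
        rw [ev_cAdd]
        exact Nat.lt_succ_self _, (hc _ _).mpr ht⟩)
    have haz : a = z := by
      have h2 : PP.pair (PP.pair x y) a ∈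
          {p | ∃ x y, PP.lt x y ∧ p = PP.pair (PP.pair x y) (f x y)} := by
        refine (hK _).mpr ?_
        refine Ev.mono3 ha (rp_pair (PP.pair x y) a) (rp_pair x y) fun t h3 h4 h5 => ?_
        show rp _ t ∈ _
        rw [h4, h5]
        exact (hc _ _).mp h3.2.1
      obtain ⟨x', y', _, he⟩ := h2
      obtain ⟨e1, e2⟩ := pair_inj he
      obtain ⟨e3, e4⟩ := pair_inj e1
      rw [e2, ← e3, ← e4]
    have hg : Ev fun t => gOf (E K t) (rp x t) (rp y t) = rp z t := by
      refine ha.mono fun t ht => ?_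
      classical
      have hex : ∃ z, prn (prn (rp x t) (rp y t)) z ∈ dec (E K t) := ⟨_, (hc _ _).mp ht.2.1⟩
      have e : gOf (E K t) (rp x t) (rp y t) = Nat.find hex := by
        unfold gOf
        rw [dif_pos hex]
      rw [e, ← haz]
      refine le_antisymm (Nat.find_min' hex ((hc _ _).mp ht.2.1)) ?_
      by_contra hcon
      push Not at hcon
      exact ht.2.2 _ hcon ((hc _ _).mpr (Nat.find_spec hex))
    rw [pp_ext, pp_ext, ← Ev.or_iff]
    rw [pp_lt'] at hxy
    refine ((Ev.and hx hy).and hxy).mono3 (hg.and (Ev.ge (k + 1))) hz ?_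
    rintro t ⟨⟨h2, h3⟩, h4⟩ ⟨h5, h6⟩ h7
    have h8 := hfree t h6 (rp x t) h2 (rp y t) h3 h4 (by rw [h5]; exact h7)
    rw [h5] at h8
    exact h8

/-! ### failure of bounding -/

theorem stepK_r (k t n : ℕ) (s : St) (d : ℕ) : (stepK k t n s d).2.1 ≤ s.2.1 := by
  match k with
  | 0 => exact stepColor_r t n s d
  | 1 => exact stepFree_r t n s d
  | 2 => exact stepGap_r t n s d
  | (k + 3) => exact stepAdv_r t n s d

theorem st_r (k t : ℕ) : (st k t).2.1 ≤ t := by
  induction k with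
  | zero => rw [st_zero]
  | succ k ih =>
    rw [st_succ]
    exact (stepK_r _ _ _ _ _).trans ih

/-- code of the graph of the colouring -/
def FC : Cd := .setc topC (cEx (cAdd .var (.nat 1))
  (cEq (.lift .var) (cPr .var (.op 12 (.pair .idx .var)))))

theorem mem_FC (t p : ℕ) : p ∈ dec (E FC t) ↔ p < TT t + 1 ∧ ∃ x < p + 1, p = prn x (colN t x) := by
  unfold E FC
  rw [mem_setc, ev_topC, tr_cEx]
  simp only [tr_cEq, ev_cAdd, ev_var, ev_nat, ev_lift, consN_zero, consN_succ, ev_cPr]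
  have : ∀ x w, ev (.op 12 (.pair .idx .var)) t (consN x w) = colN t x := by
    intro x w
    simp [ev, opf, consN]
  simp only [this]

/-- the graph of the colouring -/
noncomputable def FS' : PP.Sets := ⟨{x | Ev fun t => rp x t ∈ dec (E FC t)}, FC, fun _ => Iff.rfl⟩

/-- `¬ (j < l ∧ (l, i) ∈ F)` -/
noncomputable def thetaB : Delta0 PP :=
  .neg (.and (.lt (.var 2) (.var 0))
    (.mem (.add (.mul (.add (.var 0) (.var 3)) (.add (.var 0) (.var 3))) (.var 0)) FS'))

theorem thetaB_holds (l k j i : PP.M) (v : ℕ → PP.M) :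
    thetaB.Holds (RM.cons l (RM.cons k (RM.cons j (RM.cons i v)))) ↔
      ¬ (PP.lt j l ∧ PP.pair l i ∈ (FS' : Set PP.M)) := Iff.rfl

theorem mem_FS' (l i : PP.M) : PP.pair l i ∈ (FS' : Set PP.M) ↔
    Ev fun t => rp i t = colN t (rp l t) := by
  show (Ev fun t => rp (PP.pair l i) t ∈ dec (E FC t)) ↔ _
  constructor
  · intro h
    refine h.mono2 (rp_pair l i) fun t h1 h2 => ?_
    rw [mem_FC] at h1
    obtain ⟨_, x, _, hx⟩ := h1
    rw [h2] at hx
    obtain ⟨e1, e2⟩ := prn_inj hx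
    rw [e2, e1]
  · intro h
    refine h.mono3 (rp_pair l i) (rp_top (PP.pair l i)) fun t h1 h2 h3 => ?_
    rw [mem_FC]
    refine ⟨by omega, rp l t, ?_, ?_⟩
    · rw [h2]
      unfold prn
      nlinarith [Nat.zero_le ((rp l t + rp i t) * (rp l t + rp i t))]
    · rw [h2, h1]

theorem bdd_pow : Bdd (.op 13 .idx) := ⟨0, Ev.of fun t => by
  rw [st_zero]
  show ev _ _ _ < _
  simp [ev, opf]⟩

theorem not_bounding : ¬ SigmaTwoBounding PP := by
  intro hB
  let a0 : PP.M := mkp _ bdd_pow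
  have ha0 : Ev fun t => rp a0 t = 2 ^ t := (rp_mkp _ bdd_pow).mono fun t ht => by
    rw [ht]
    show ev _ _ _ = _
    simp [ev, opf]
  obtain ⟨b, hb⟩ := hB thetaB (fun _ => PP.zero) a0 (by
    intro i hi
    obtain ⟨k, _, hreq⟩ := req_inf (0, rc i) 0
    obtain ⟨j1, hj1, hadv⟩ := adv (k + 1)
    refine ⟨mkp (uC (j1 + 1)) (bdd_uC _), PP.zero, fun l => ?_⟩
    rw [thetaB_holds]
    rintro ⟨h1, h2⟩
    rw [mem_FS'] at h2
    rw [pp_lt'] at h1
    obtain ⟨m, hm⟩ := rc_bdd l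
    have hm' : Ev fun t => rp l t < (st (max m (k + 1)) t).2.2 := bdd_le (le_max_left _ _) hm
    refine (((h1.and h2).and (rp_mkp (uC (j1 + 1)) (bdd_uC _))).mono3
      ((Ev.ge (j1 + 1)).and (Ev.ge (max m (k + 1)))) hm' ?_).false
    rintro t ⟨⟨h3, h4⟩, h5⟩ ⟨h6, h7⟩ h8
    rw [h5, E_uC] at h3
    obtain ⟨x, hx, hx'⟩ := (hadv t h6).2
    have hxk : x ∈ (st (k + 1) t).1 := (st_le hj1 (by omega)).1 hx
    obtain ⟨y, hy⟩ := st_ne h7
    have hy2 := st_lb h7 y hy
    have hyk : y ∈ (st (k + 1) t).1 := (st_le (le_max_right m (k + 1)) h7).1 hy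
    have hk1 : k + 1 ≤ t := by omega
    rw [st_succ, hreq] at hxk hyk
    have hcol := (stepColor_spec (inv_st' hk1) (E (rc i) t)).2.2.2 (rp l t)
      ⟨x, hxk, by omega⟩ ⟨y, hyk, by omega⟩
    have hr1 : (st k t).2.1 ≤ t := st_r k t
    have hr2 : t - k ≤ (st k t).2.1 := (inv_st k t (by omega)).2.1
    rw [E_rc, h4] at hcol
    have hlt : (st k t).2.1 - 1 < t := by omega
    have e : (colN t (rp l t)).testBit ((st k t).2.1 - 1) = cc t (rp l t) ((st k t).2.1 - 1) := by
      unfold colN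
      rw [Nat.testBit_ofBits_lt _ _ hlt]
    rw [e] at hcol
    cases h9 : cc t (rp l t) ((st k t).2.1 - 1) <;> rw [h9] at hcol <;> simp at hcol)
  -- the colour of `b`
  have ecol : ∀ t, E (.op 12 (.pair .idx (rc b))) t = colN t (rp b t) := by
    intro t
    show ev _ _ _ = _
    simp [ev, opf]
    rfl
  have hlt : ∀ t x, colN t x < 2 ^ t := fun t x => Nat.ofBits_lt_two_pow _
  have hbd : Bdd (.op 12 (.pair .idx (rc b))) := bdd_pow.of_le (Ev.of fun t => by
    rw [ecol]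
    refine (hlt _ _).le.trans (le_of_eq ?_)
    show _ = ev _ _ _
    simp [ev, opf])
  let i0 : PP.M := mkp _ hbd
  have hi0 : Ev fun t => rp i0 t = colN t (rp b t) := (rp_mkp _ hbd).mono fun t ht => by
    rw [ht, ecol]
  obtain ⟨j, hj, k, hk⟩ := hb i0 (by
    rw [pp_lt']
    exact hi0.mono2 ha0 fun t h1 h2 => by rw [h1, h2]; exact hlt _ _)
  have := hk b
  rw [thetaB_holds] at this
  exact this ⟨hj, (mem_FS' b i0).mpr hi0⟩

end Pool.Agent.Helper617.FS
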